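import Pool.Agent.H872.LK.Defs

set_option autoImplicit false
open Finset
open scoped FinsetFamily

namespace Pool.Agent.H872.LK

namespace A1L

theorem choose_ge (n k : ℕ) : n + 1 ≤ (n + k + 1).choose (k + 1) := by
  induction n with
  | zero => simp
  | succ n ih =>
    have h1 : n + 1 + k + 1 = (n + k + 1) + 1 := by ring
    rw [h1, Nat.choose_succ_succ]
    have h2 : 0 < (n + k + 1).choose k := Nat.choose_pos (by omega)
    have h3 : (n + k + 1).choose (k.succ) = (n + k + 1).choose (k + 1) := rfl
    omega

theorem lt_choose_of_le {k m a : ℕ} (h : m + (k + 1) ≤ a) : m < a.choose (k + 1) := by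
  have h1 : (m + k + 1).choose (k + 1) ≤ a.choose (k + 1) := Nat.choose_le_choose _ (by omega)
  have h2 := choose_ge m k
  omega

theorem top_eq {k m a : ℕ} (h1 : a.choose (k + 1) ≤ m) (h2 : m < (a + 1).choose (k + 1)) :
    top (k + 1) m = a := by
  unfold top
  rw [Nat.findGreatest_eq_iff]
  refine ⟨?_, fun _ => h1, ?_⟩
  · by_contra h
    push Not at h
    have := lt_choose_of_le (k := k) (m := m) (a := a) h.le
    omega
  · intro b hb _ hb2
    have h3 : (a + 1).choose (k + 1) ≤ b.choose (k + 1) := Nat.choose_le_choose _ (by omega)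
    have hb3 : b.choose (k + 1) ≤ m := hb2
    omega

theorem top_spec {k m : ℕ} (hm : 1 ≤ m) : k + 1 ≤ top (k + 1) m ∧
    (top (k + 1) m).choose (k + 1) ≤ m ∧ m < (top (k + 1) m + 1).choose (k + 1) := by
  have h0 : (k + 1).choose (k + 1) ≤ m := by rw [Nat.choose_self]; exact hm
  have h1 : k + 1 ≤ top (k + 1) m := by
    unfold top
    exact Nat.le_findGreatest (by omega) h0
  have h2 : (top (k + 1) m).choose (k + 1) ≤ m := by
    unfold top
    exact Nat.findGreatest_spec (P := fun a => a.choose (k + 1) ≤ m) (by omega : k + 1 ≤ m + (k + 1)) h0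
  refine ⟨h1, h2, ?_⟩
  by_cases h : top (k + 1) m + 1 ≤ m + (k + 1)
  · have h3 := Nat.findGreatest_is_greatest (P := fun a => a.choose (k + 1) ≤ m)
      (n := m + (k + 1)) (k := top (k + 1) m + 1) (by unfold top; exact Nat.lt_succ_self _) h
    exact not_le.1 h3
  · exact lt_choose_of_le (by omega)

end A1L

open A1L

theorem f_zero (k : ℕ) : f k 0 = 0 := by
  cases k with
  | zero => rfl
  | succ k => simp [f]

/-- Greedy decomposition. -/
theorem exists_decomp (k m : ℕ) (hm : 1 ≤ m) :
    ∃ a y : ℕ, k + 1 ≤ a ∧ y < a.choose k ∧ m = a.choose (k + 1) + y ∧ top (k + 1) m = a := by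
  obtain ⟨h1, h2, h3⟩ := top_spec (k := k) hm
  refine ⟨top (k + 1) m, m - (top (k + 1) m).choose (k + 1), h1, ?_, by omega, rfl⟩
  rw [Nat.choose_succ_succ] at h3
  have : (top (k + 1) m).choose (k.succ) = (top (k + 1) m).choose (k + 1) := rfl
  omega

theorem A1L.f_rec_lt {k a y : ℕ} (ha : k + 1 ≤ a) (hy : y < a.choose k) :
    f (k + 1) (a.choose (k + 1) + y) = a.choose k + f k y := by
  have h0 : 0 < a.choose (k + 1) := Nat.choose_pos ha
  have ht : top (k + 1) (a.choose (k + 1) + y) = a := by
    apply top_eq (by omega)
    rw [Nat.choose_succ_succ]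
    have : a.choose (k.succ) = a.choose (k + 1) := rfl
    omega
  have h1 : a.choose (k + 1) + y ≠ 0 := by omega
  rw [f, if_neg h1, ht, Nat.add_sub_cancel_left]

theorem f_choose {k a : ℕ} (ha : k + 1 ≤ a) : f (k + 1) (a.choose (k + 1)) = a.choose k := by
  have h := f_rec_lt (k := k) (a := a) (y := 0) ha (Nat.choose_pos (by omega))
  rw [add_zero, f_zero, add_zero] at h
  exact h

/-- The recursion, including the boundary case `y = C(a,k)`. -/
theorem f_rec {k a y : ℕ} (ha : k + 1 ≤ a) (hy : y ≤ a.choose k) :
    f (k + 1) (a.choose (k + 1) + y) = a.choose k + f k y := by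
  rcases hy.lt_or_eq with h | h
  · exact f_rec_lt ha h
  · subst h
    have h1 : a.choose (k + 1) + a.choose k = (a + 1).choose (k + 1) := by
      rw [Nat.choose_succ_succ, add_comm]
    rw [h1, f_choose (by omega)]
    cases k with
    | zero => simp [f]
    | succ k =>
      rw [f_choose (by omega), Nat.choose_succ_succ, add_comm]

theorem f_one (k : ℕ) : f k 1 = k := by
  cases k with
  | zero => rfl
  | succ k =>
    have h := f_choose (k := k) (a := k + 1) le_rfl
    rw [Nat.choose_self, Nat.choose_succ_self_right] at h
    exact h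

theorem f_mono (k : ℕ) : Monotone (f k) := by
  induction k with
  | zero => intro x y _; exact le_of_eq rfl
  | succ k ih =>
    apply monotone_nat_of_le_succ
    intro m
    rcases Nat.eq_zero_or_pos m with hm | hm
    · subst hm
      rw [f_zero]
      exact Nat.zero_le _
    · obtain ⟨a, y, h1, h2, h3, _⟩ := exists_decomp k m hm
      rw [h3, add_assoc, f_rec h1 h2.le, f_rec h1 h2]
      exact Nat.add_le_add_left (ih (Nat.le_succ y)) _

/-- Local LYM for the minimum. -/
theorem f_lym {k b m : ℕ} (hk : 1 ≤ k) (hb : k ≤ b) (hm : m ≤ b.choose k) :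
    k * m ≤ (b + 1 - k) * f k m := by
  induction k, hk using Nat.le_induction generalizing b m with
  | base =>
    rcases Nat.eq_zero_or_pos m with h0 | h0
    · subst h0; simp
    · obtain ⟨a, y, h1, h2, h3, _⟩ := exists_decomp 0 m h0
      rw [Nat.choose_zero_right] at h2
      have hy : y = 0 := by omega
      have hf : f 1 m = 1 := by
        rw [h3, hy, add_zero]
        have := f_choose (k := 0) (a := a) (by omega)
        rw [Nat.choose_zero_right] at this
        exact this
      rw [hf, Nat.choose_one_right] at *
      omega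
  | succ k hk ih =>
    rcases Nat.eq_zero_or_pos m with h0 | h0
    · subst h0; simp
    · obtain ⟨a, y, h1, h2, h3, _⟩ := exists_decomp k m h0
      have hc : (k + 1) * a.choose (k + 1) = (a - k) * a.choose k := by
        rw [mul_comm, Nat.choose_succ_right_eq, mul_comm]
      have hf : f (k + 1) m = a.choose k + f k y := by rw [h3, f_rec h1 h2.le]
      have e1 : b + 1 - (k + 1) = b - k := by omega
      rw [e1, hf]
      rcases Nat.eq_zero_or_pos y with hy | hy
      · subst hy
        rw [add_zero] at h3
        have hab : a ≤ b := by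
          by_contra hab
          push Not at hab
          have h4 : (b + 1).choose (k + 1) ≤ a.choose (k + 1) := Nat.choose_le_choose _ hab
          rw [Nat.choose_succ_succ] at h4
          have h5 : 0 < b.choose k := Nat.choose_pos (by omega)
          have h6 : b.choose (k.succ) = b.choose (k + 1) := rfl
          omega
        rw [f_zero, add_zero, h3, hc]
        exact Nat.mul_le_mul_right _ (by omega)
      · have hab : a + 1 ≤ b := by
          by_contra hab
          push Not at hab
          have h4 : b.choose (k + 1) ≤ a.choose (k + 1) := Nat.choose_le_choose _ (by omega)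
          omega
        have hi := ih (b := a) (m := y) (by omega) h2.le
        calc (k + 1) * m = (k + 1) * a.choose (k + 1) + k * y + y := by rw [h3]; ring
          _ ≤ (a - k) * a.choose k + (a + 1 - k) * f k y + a.choose k := by
              rw [hc]
              omega
          _ = (a + 1 - k) * (a.choose k + f k y) := by
              have e2 : a + 1 - k = (a - k) + 1 := by omega
              rw [e2]; ring
          _ ≤ (b - k) * (a.choose k + f k y) := Nat.mul_le_mul_right _ (by omega)

theorem f_small {j α : ℕ} (hα : 1 ≤ α) : f j (α - 1) + j + 1 ≤ f j α + α := by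
  induction j generalizing α with
  | zero => simp only [f]; omega
  | succ j ih =>
    rcases Nat.lt_or_ge α (j + 2) with h | h
    · rcases hα.eq_or_lt with h1 | h1
      · subst h1
        rw [Nat.sub_self, f_zero, f_one]
        omega
      · have hc1 : (j + 1).choose (j + 1) = 1 := Nat.choose_self _
        have hc2 : (j + 1).choose j = j + 1 := Nat.choose_succ_self_right j
        have e1 : f (j + 1) α = (j + 1) + f j (α - 1) := by
          have := f_rec (k := j) (a := j + 1) (y := α - 1) le_rfl (by omega)
          rw [hc1, hc2, show 1 + (α - 1) = α by omega] at this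
          exact this
        have e2 : f (j + 1) (α - 1) = (j + 1) + f j (α - 1 - 1) := by
          have := f_rec (k := j) (a := j + 1) (y := α - 1 - 1) le_rfl (by omega)
          rw [hc1, hc2, show 1 + (α - 1 - 1) = α - 1 by omega] at this
          exact this
        have h2 := ih (α := α - 1) (by omega)
        rw [e1, e2]
        omega
    · have := f_mono (j + 1) (Nat.sub_le α 1)
      omega

end Pool.Agent.H872.LK
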