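import Pool.Agent.H872.LK.Defs
import Pool.Agent.H872.LK.A1

/-! The colex families `cf k m`: recursion, monotonicity, shadows. -/

set_option autoImplicit false
open Finset
open scoped FinsetFamily

namespace Pool.Agent.H872.LK

namespace A2L

/-- strict monotonicity of `C(·, k+1)` beyond `k + 1` -/
lemma choose_lt {k a n : ℕ} (ha : k + 1 ≤ a) (hn : n < a) :
    n.choose (k + 1) < a.choose (k + 1) := by
  obtain ⟨b, rfl⟩ : ∃ b, a = b + 1 := ⟨a - 1, by omega⟩
  have h1 : n.choose (k + 1) ≤ b.choose (k + 1) := Nat.choose_le_choose _ (by omega)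
  have h2 : 0 < b.choose k := Nat.choose_pos (by omega)
  rw [Nat.choose_succ_succ']
  omega

lemma top_eq {k a y : ℕ} (ha : k + 1 ≤ a) (hy : y < a.choose k) :
    top (k + 1) (a.choose (k + 1) + y) = a := by
  have hpos : 0 < a.choose (k + 1) := Nat.choose_pos ha
  obtain ⟨a', y', ha', hy', hm, ht⟩ := exists_decomp k (a.choose (k + 1) + y) (by omega)
  rw [ht]
  have key : ∀ b b' z z' : ℕ, z < b.choose k → b.choose (k + 1) + z = b'.choose (k + 1) + z' →
      b' ≤ b := by
    intro b b' z z' hz he
    by_contra hlt
    have h1 : (b + 1).choose (k + 1) ≤ b'.choose (k + 1) := Nat.choose_le_choose _ (by omega)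
    rw [Nat.choose_succ_succ'] at h1
    omega
  exact le_antisymm (key _ _ _ _ hy hm) (key _ _ _ _ hy' hm.symm)

lemma cf_rec_lt {k a y : ℕ} (ha : k + 1 ≤ a) (hy : y < a.choose k) :
    cf (k + 1) (a.choose (k + 1) + y) =
      (range a).powersetCard (k + 1) ∪ (cf k y).image (insert a) := by
  have hpos : 0 < a.choose (k + 1) := Nat.choose_pos ha
  have h0 : a.choose (k + 1) + y ≠ 0 := by omega
  rw [cf, if_neg h0, top_eq ha hy, Nat.add_sub_cancel_left]

end A2L

theorem cf_zero (k : ℕ) : cf k 0 = ∅ := by
  cases k with
  | zero => simp [cf]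
  | succ k => simp [cf]

namespace A2L

lemma cf_full {k a : ℕ} (ha : k ≤ a) : cf k (a.choose k) = (range a).powersetCard k := by
  cases k with
  | zero => simp [cf]
  | succ k =>
    have h1 : 0 < a.choose k := Nat.choose_pos (by omega)
    have h2 := cf_rec_lt ha h1
    rw [cf_zero, Finset.image_empty, Finset.union_empty, Nat.add_zero] at h2
    exact h2

end A2L

theorem cf_rec {k a y : ℕ} (ha : k + 1 ≤ a) (hy : y ≤ a.choose k) :
    cf (k + 1) (a.choose (k + 1) + y) =
      (range a).powersetCard (k + 1) ∪ (cf k y).image (insert a) := by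
  rcases Nat.lt_or_ge y (a.choose k) with h | h
  · exact A2L.cf_rec_lt ha h
  · have he : y = a.choose k := le_antisymm hy h
    subst he
    have h1 : a.choose (k + 1) + a.choose k = (a + 1).choose (k + 1) := by
      rw [Nat.choose_succ_succ']
      omega
    rw [h1, A2L.cf_full (by omega : k + 1 ≤ a + 1), A2L.cf_full (by omega : k ≤ a),
      Finset.range_add_one, Finset.powersetCard_succ_insert Finset.notMem_range_self]

theorem cf_sub {k m n : ℕ} (hm : m ≤ n.choose k) {A : Finset ℕ} (hA : A ∈ cf k m) :
    A ⊆ range n := by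
  induction k generalizing m n A with
  | zero =>
    by_cases h : m = 0
    · subst h
      rw [cf_zero] at hA
      exact absurd hA (Finset.notMem_empty _)
    · rw [cf, if_neg h, Finset.mem_singleton] at hA
      subst hA
      exact Finset.empty_subset _
  | succ k ih =>
    by_cases h : m = 0
    · subst h
      rw [cf_zero] at hA
      exact absurd hA (Finset.notMem_empty _)
    · obtain ⟨a, y, ha, hy, he, -⟩ := exists_decomp k m (by omega)
      subst he
      rw [cf_rec ha hy.le, Finset.mem_union] at hA
      have han : a ≤ n := by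
        by_contra hlt
        have := A2L.choose_lt ha (by omega : n < a)
        omega
      rcases hA with hA | hA
      · have h1 := (Finset.mem_powersetCard.1 hA).1
        exact h1.trans (Finset.range_subset_range.2 han)
      · obtain ⟨B, hB, rfl⟩ := Finset.mem_image.1 hA
        have hy0 : y ≠ 0 := by
          rintro rfl
          rw [cf_zero] at hB
          exact absurd hB (Finset.notMem_empty _)
        have han' : a < n := by
          by_contra hlt
          have h1 : a = n := by omega
          subst h1
          omega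
        have h1 := ih hy.le hB
        exact Finset.insert_subset (Finset.mem_range.2 han')
          (h1.trans (Finset.range_subset_range.2 han))

theorem cf_uni (k m : ℕ) : Uni k (cf k m) := by
  induction k generalizing m with
  | zero =>
    intro A hA
    by_cases h : m = 0
    · subst h
      rw [cf_zero] at hA
      exact absurd hA (Finset.notMem_empty _)
    · rw [cf, if_neg h, Finset.mem_singleton] at hA
      subst hA
      exact Finset.card_empty
  | succ k ih =>
    intro A hA
    by_cases h : m = 0
    · subst h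
      rw [cf_zero] at hA
      exact absurd hA (Finset.notMem_empty _)
    · obtain ⟨a, y, ha, hy, he, -⟩ := exists_decomp k m (by omega)
      subst he
      rw [cf_rec ha hy.le, Finset.mem_union] at hA
      rcases hA with hA | hA
      · exact (Finset.mem_powersetCard.1 hA).2
      · obtain ⟨B, hB, rfl⟩ := Finset.mem_image.1 hA
        have h1 := cf_sub hy.le hB
        have h2 : a ∉ B := fun hc => Finset.notMem_range_self (h1 hc)
        rw [Finset.card_insert_of_notMem h2, ih y B hB]

theorem cf_card {k : ℕ} (hk : 1 ≤ k) (m : ℕ) : (cf k m).card = m := by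
  obtain ⟨k, rfl⟩ : ∃ j, k = j + 1 := ⟨k - 1, by omega⟩
  clear hk
  induction k generalizing m with
  | zero =>
    by_cases h : m = 0
    · subst h
      rw [cf_zero, Finset.card_empty]
    · obtain ⟨a, y, ha, hy, he, -⟩ := exists_decomp 0 m (by omega)
      rw [Nat.choose_zero_right] at hy
      have hy0 : y = 0 := by omega
      subst hy0
      subst he
      rw [cf_rec ha (Nat.zero_le _), cf_zero, Finset.image_empty, Finset.union_empty,
        Finset.card_powersetCard, Finset.card_range]
      rfl
  | succ k ih =>
    by_cases h : m = 0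
    · subst h
      rw [cf_zero, Finset.card_empty]
    · obtain ⟨a, y, ha, hy, he, -⟩ := exists_decomp (k + 1) m (by omega)
      subst he
      have hB : ∀ B ∈ cf (k + 1) y, a ∉ B := by
        intro B hB hc
        exact Finset.notMem_range_self (cf_sub hy.le hB hc)
      rw [cf_rec ha hy.le, Finset.card_union_of_disjoint, Finset.card_powersetCard,
        Finset.card_range, Finset.card_image_of_injOn, ih y]
      · intro B hB1 B' hB1' hE
        have e1 := hB B hB1
        have e2 := hB B' hB1'
        have e3 : (insert a B).erase a = (insert a B').erase a := congrArg (fun s => s.erase a) hE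
        rwa [Finset.erase_insert e1, Finset.erase_insert e2] at e3
      · rw [Finset.disjoint_left]
        intro A hA hA'
        obtain ⟨B, _, rfl⟩ := Finset.mem_image.1 hA'
        exact Finset.notMem_range_self ((Finset.mem_powersetCard.1 hA).1
          (Finset.mem_insert_self _ _))

theorem cf_mono (k : ℕ) : Monotone (cf k) := by
  induction k with
  | zero =>
    refine monotone_nat_of_le_succ fun m => ?_
    by_cases h : m = 0
    · subst h
      rw [cf_zero]
      exact Finset.empty_subset _
    · rw [cf, cf, if_neg h, if_neg (by omega : ¬ m + 1 = 0)]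
  | succ k ih =>
    refine monotone_nat_of_le_succ fun m => ?_
    by_cases h : m = 0
    · subst h
      rw [cf_zero]
      exact Finset.empty_subset _
    · obtain ⟨a, y, ha, hy, he, -⟩ := exists_decomp k m (by omega)
      subst he
      rw [cf_rec ha hy.le, Nat.add_assoc, cf_rec ha (by omega : y + 1 ≤ a.choose k)]
      exact Finset.union_subset_union subset_rfl (Finset.image_subset_image (ih (Nat.le_succ y)))

namespace A2L

lemma shadow_pc {k a : ℕ} (ha : k + 1 ≤ a) :
    ∂ ((range a).powersetCard (k + 1)) = (range a).powersetCard k := by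
  ext t
  rw [Finset.mem_shadow_iff_insert_mem, Finset.mem_powersetCard]
  constructor
  · rintro ⟨x, hx, hxt⟩
    obtain ⟨h1, h2⟩ := Finset.mem_powersetCard.1 hxt
    rw [Finset.card_insert_of_notMem hx] at h2
    exact ⟨(Finset.subset_insert x t).trans h1, by omega⟩
  · rintro ⟨h1, h2⟩
    have h3 : ∃ x ∈ range a, x ∉ t := by
      by_contra hcon
      push Not at hcon
      have h4 : (range a).card ≤ t.card := Finset.card_le_card fun x hx => hcon x hx
      rw [Finset.card_range] at h4
      omega
    obtain ⟨x, hx, hxt⟩ := h3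
    refine ⟨x, hxt, Finset.mem_powersetCard.2 ⟨Finset.insert_subset hx h1, ?_⟩⟩
    rw [Finset.card_insert_of_notMem hxt, h2]

lemma shadow_ins {a : ℕ} {𝒜 : Finset (Finset ℕ)} (h : ∀ B ∈ 𝒜, a ∉ B) :
    ∂ (𝒜.image (insert a)) = 𝒜 ∪ (∂ 𝒜).image (insert a) := by
  ext t
  rw [Finset.mem_shadow_iff, Finset.mem_union, Finset.mem_image]
  constructor
  · rintro ⟨s, hs, x, hx, rfl⟩
    obtain ⟨B, hB, rfl⟩ := Finset.mem_image.1 hs
    rcases Finset.mem_insert.1 hx with rfl | hxB
    · left
      rw [Finset.erase_insert (h B hB)]
      exact hB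
    · right
      have hne : a ≠ x := fun he => h B hB (he ▸ hxB)
      refine ⟨B.erase x, Finset.mem_shadow_iff.2 ⟨B, hB, x, hxB, rfl⟩, ?_⟩
      rw [Finset.erase_insert_of_ne hne]
  · rintro (ht | ⟨u, hu, rfl⟩)
    · exact ⟨insert a t, Finset.mem_image_of_mem _ ht, a, Finset.mem_insert_self _ _,
        Finset.erase_insert (h t ht)⟩
    · obtain ⟨B, hB, x, hxB, rfl⟩ := Finset.mem_shadow_iff.1 hu
      have hne : a ≠ x := fun he => h B hB (he ▸ hxB)
      exact ⟨insert a B, Finset.mem_image_of_mem _ hB, x, Finset.mem_insert_of_mem hxB,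
        Finset.erase_insert_of_ne hne⟩

lemma shadow_un (𝒜 ℬ : Finset (Finset ℕ)) : ∂ (𝒜 ∪ ℬ) = ∂ 𝒜 ∪ ∂ ℬ := by
  ext t
  rw [Finset.mem_union, Finset.mem_shadow_iff, Finset.mem_shadow_iff, Finset.mem_shadow_iff]
  constructor
  · rintro ⟨s, hs, x, hx, he⟩
    rcases Finset.mem_union.1 hs with h | h
    · exact Or.inl ⟨s, h, x, hx, he⟩
    · exact Or.inr ⟨s, h, x, hx, he⟩
  · rintro (⟨s, hs, x, hx, he⟩ | ⟨s, hs, x, hx, he⟩)
    · exact ⟨s, Finset.mem_union_left _ hs, x, hx, he⟩
    · exact ⟨s, Finset.mem_union_right _ hs, x, hx, he⟩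

lemma shadow_gen (k m : ℕ) : ∂ (cf (k + 1) m) = cf k (f (k + 1) m) := by
  induction k generalizing m with
  | zero =>
    by_cases h : m = 0
    · subst h
      rw [cf_zero, f_zero, cf_zero, Finset.shadow_empty]
    · have h1 : 1 ≤ f (0 + 1) m := by
        have h2 := f_mono (0 + 1) (show 1 ≤ m by omega)
        rw [f_one] at h2
        exact h2
      rw [cf, if_neg (by omega : ¬ f (0 + 1) m = 0)]
      have hc := cf_card (le_refl 1) m
      have hne : (cf 1 m).Nonempty := by
        rw [← Finset.card_pos, hc]
        omega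
      obtain ⟨A, hA⟩ := hne
      ext t
      rw [Finset.mem_shadow_iff, Finset.mem_singleton]
      constructor
      · rintro ⟨s, hs, x, hx, rfl⟩
        have h3 := cf_uni 1 m s hs
        rw [← Finset.card_eq_zero, Finset.card_erase_of_mem hx, h3]
      · rintro rfl
        have h3 := cf_uni 1 m A hA
        obtain ⟨x, rfl⟩ := Finset.card_eq_one.1 h3
        exact ⟨{x}, hA, x, Finset.mem_singleton_self x, Finset.erase_singleton x⟩
  | succ k ih =>
    by_cases h : m = 0
    · subst h
      rw [cf_zero, f_zero, cf_zero, Finset.shadow_empty]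
    · obtain ⟨a, y, ha, hy, he, -⟩ := exists_decomp (k + 1) m (by omega)
      subst he
      have hB : ∀ B ∈ cf (k + 1) y, a ∉ B := by
        intro B hB hc
        exact Finset.notMem_range_self (cf_sub hy.le hB hc)
      have hsub : cf (k + 1) y ⊆ (range a).powersetCard (k + 1) := by
        intro B hB1
        exact Finset.mem_powersetCard.2 ⟨cf_sub hy.le hB1, cf_uni _ _ B hB1⟩
      have hfy : f (k + 1) y ≤ a.choose k := by
        have h2 := f_mono (k + 1) hy.le
        rw [f_choose (by omega : k + 1 ≤ a)] at h2
        exact h2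
      rw [f_rec ha hy.le, cf_rec ha hy.le, cf_rec (by omega : k + 1 ≤ a) hfy,
        shadow_un, shadow_pc ha, shadow_ins hB, ih y, ← Finset.union_assoc,
        Finset.union_eq_left.2 hsub]

end A2L

theorem cf_shadow (k m : ℕ) : ∂ (cf (k + 2) m) = cf (k + 1) (f (k + 2) m) :=
  A2L.shadow_gen (k + 1) m

theorem cf_shadow_card (k m : ℕ) : (∂ (cf k m)).card = f k m := by
  rcases k with _ | _ | k
  · rw [f]
    by_cases h : m = 0
    · subst h
      rw [cf_zero, Finset.shadow_empty, Finset.card_empty]
    · rw [cf, if_neg h, Finset.card_eq_zero, Finset.eq_empty_iff_forall_notMem]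
      intro t ht
      obtain ⟨s, hs, x, hx, -⟩ := Finset.mem_shadow_iff.1 ht
      rw [Finset.mem_singleton] at hs
      subst hs
      exact absurd hx (Finset.notMem_empty _)
  · rw [A2L.shadow_gen 0 m]
    by_cases h : m = 0
    · subst h
      rw [f_zero, cf_zero, Finset.card_empty]
    · obtain ⟨a, y, ha, hy, he, -⟩ := exists_decomp 0 m (by omega)
      have h1 : f (0 + 1) m = 1 := by
        rw [he, f_rec ha hy.le, f, Nat.choose_zero_right]
      rw [h1, cf, if_neg (by omega : ¬ 1 = 0), Finset.card_singleton]
  · rw [cf_shadow]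
    exact cf_card (by omega) _

end Pool.Agent.H872.LK
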