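import Pool.Agent.H872.LK.Defs
import Pool.Agent.H872.LK.A1
import Pool.Agent.H872.LK.A2

/-! A3: the Kruskal–Katona theorem for families of finite sets of natural numbers. -/

set_option autoImplicit false
open Finset
open scoped FinsetFamily

namespace Pool.Agent.H872.LK

theorem cf_init {k m : ℕ} {s t : Finset ℕ} (hs : s ∈ cf k m) (ht : t.card = k)
    (h : toColex t < toColex s) : t ∈ cf k m := by
  induction k generalizing m s t with
  | zero =>
    have hs0 : s.card = 0 := cf_uni 0 m s hs
    have ht0 : t = s := by rw [card_eq_zero.1 ht, card_eq_zero.1 hs0]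
    rw [ht0]; exact hs
  | succ k ih =>
    rcases Nat.eq_zero_or_pos m with hm | hm
    · rw [hm, cf_zero] at hs
      exact absurd hs (notMem_empty s)
    · obtain ⟨a, y, ha, hy, hmy, -⟩ := exists_decomp k m hm
      rw [hmy, cf_rec ha hy.le, mem_union] at hs ⊢
      rcases hs with hs | hs
      · left
        rw [mem_powersetCard] at hs ⊢
        refine ⟨fun b hb => mem_range.2 ?_, ht⟩
        exact Colex.forall_lt_mono h.le (fun b hb => mem_range.1 (hs.1 hb)) b hb
      · obtain ⟨s', hs', rfl⟩ := mem_image.1 hs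
        have hs'a : s' ⊆ range a := cf_sub hy.le hs'
        have has' : a ∉ s' := fun h1 => by
          have := mem_range.1 (hs'a h1); omega
        have hta : ∀ b ∈ t, b ≤ a := by
          refine Colex.forall_le_mono h.le fun b hb => ?_
          rcases mem_insert.1 hb with hb | hb
          · exact hb.le
          · exact (mem_range.1 (hs'a hb)).le
        by_cases hat : a ∈ t
        · right
          refine mem_image.2 ⟨t.erase a, ?_, insert_erase hat⟩
          have hct : (t.erase a).card = k := by rw [card_erase_of_mem hat, ht]; rfl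
          refine ih hs' hct ?_
          have h1 := (Colex.toColex_sdiff_lt_toColex_sdiff (singleton_subset_iff.2 hat)
            (singleton_subset_iff.2 (mem_insert_self a s'))).2 h
          rw [sdiff_singleton_eq_erase, sdiff_singleton_eq_erase, erase_insert has'] at h1
          exact h1
        · left
          rw [mem_powersetCard]
          refine ⟨fun b hb => mem_range.2 ?_, ht⟩
          exact lt_of_le_of_ne (hta b hb) (fun h1 => hat (h1 ▸ hb))

namespace A3L

/-- the family on `Fin n` -/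
def tr (n : ℕ) (F : Finset (Finset ℕ)) : Finset (Finset (Fin n)) :=
  (univ : Finset (Finset (Fin n))).filter fun s => s.map Fin.valEmbedding ∈ F

theorem mem_tr {n : ℕ} {F : Finset (Finset ℕ)} {s : Finset (Fin n)} :
    s ∈ tr n F ↔ s.map Fin.valEmbedding ∈ F := by
  unfold tr
  rw [mem_filter]
  exact and_iff_right (mem_univ s)

theorem exists_map {n : ℕ} {A : Finset ℕ} (hA : A ⊆ range n) :
    ∃ s : Finset (Fin n), s.map Fin.valEmbedding = A := by
  refine ⟨A.attachFin fun m hm => mem_range.1 (hA hm), ?_⟩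
  ext b
  simp only [mem_map, mem_attachFin, Fin.valEmbedding_apply]
  constructor
  · rintro ⟨c, hc, rfl⟩; exact hc
  · intro hb; exact ⟨⟨b, mem_range.1 (hA hb)⟩, hb, rfl⟩

theorem card_tr {n : ℕ} {F : Finset (Finset ℕ)} (hF : ∀ A ∈ F, A ⊆ range n) :
    (tr n F).card = F.card := by
  have h1 : (tr n F).image (fun s => s.map Fin.valEmbedding) = F := by
    ext A
    rw [mem_image]
    constructor
    · rintro ⟨s, hs, rfl⟩; exact mem_tr.1 hs
    · intro hA
      obtain ⟨s, hs⟩ := exists_map (hF A hA)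
      exact ⟨s, mem_tr.2 (hs ▸ hA), hs⟩
  have h2 : ((tr n F).image (fun s => s.map Fin.valEmbedding)).card = (tr n F).card :=
    card_image_of_injective _ (map_injective Fin.valEmbedding)
  rw [← h2, h1]

theorem shadow_tr {n : ℕ} {F : Finset (Finset ℕ)} (hF : ∀ A ∈ F, A ⊆ range n) :
    ∂ (tr n F) = tr n (∂ F) := by
  ext s
  rw [mem_tr, mem_shadow_iff_insert_mem, mem_shadow_iff_insert_mem]
  constructor
  · rintro ⟨a, ha, h1⟩
    refine ⟨(a : ℕ), ?_, ?_⟩
    · intro h2
      obtain ⟨b, hb, hba⟩ := mem_map.1 h2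
      have : b = a := Fin.ext hba
      exact ha (this ▸ hb)
    · have h2 := mem_tr.1 h1
      rw [map_insert] at h2
      exact h2
  · rintro ⟨b, hb, h1⟩
    have hbn : b < n := mem_range.1 (hF _ h1 (mem_insert_self b _))
    refine ⟨⟨b, hbn⟩, ?_, ?_⟩
    · intro h2
      exact hb (mem_map.2 ⟨⟨b, hbn⟩, h2, rfl⟩)
    · rw [mem_tr, map_insert]
      exact h1

theorem shadow_sub {n : ℕ} {F : Finset (Finset ℕ)} (hF : ∀ A ∈ F, A ⊆ range n) :
    ∀ A ∈ ∂ F, A ⊆ range n := by
  intro A hA
  obtain ⟨B, hB, hAB⟩ := exists_subset_of_mem_shadow hA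
  exact hAB.trans (hF B hB)

theorem card_shadow_tr {n : ℕ} {F : Finset (Finset ℕ)} (hF : ∀ A ∈ F, A ⊆ range n) :
    (∂ (tr n F)).card = (∂ F).card := by
  rw [shadow_tr hF, card_tr (shadow_sub hF)]

theorem exists_bound (F : Finset (Finset ℕ)) : ∃ n, ∀ A ∈ F, A ⊆ range n := by
  obtain ⟨n, hn⟩ := exists_nat_subset_range (F.sup id)
  exact ⟨n, fun A hA => (le_sup (f := id) hA).trans hn⟩

theorem sized_tr {n k : ℕ} {F : Finset (Finset ℕ)} (hF : Uni k F) :
    ((tr n F : Finset (Finset (Fin n))) : Set (Finset (Fin n))).Sized k := by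
  intro s hs
  have h1 := hF _ (mem_tr.1 (mem_coe.1 hs))
  rw [card_map] at h1
  exact h1

end A3L

/-- The Kruskal–Katona theorem for families of finite sets of natural numbers. -/
theorem f_le_shadow {k : ℕ} {𝒜 : Finset (Finset ℕ)} (h : Uni k 𝒜) :
    f k 𝒜.card ≤ (∂ 𝒜).card := by
  rcases Nat.eq_zero_or_pos k with hk | hk
  · subst hk
    have : f 0 𝒜.card = 0 := by unfold f; rfl
    rw [this]
    exact Nat.zero_le _
  · obtain ⟨n, hn⟩ := A3L.exists_bound (𝒜 ∪ cf k 𝒜.card)
    have h1 : ∀ A ∈ 𝒜, A ⊆ range n := fun A hA => hn A (mem_union_left _ hA)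
    have h2 : ∀ A ∈ cf k 𝒜.card, A ⊆ range n := fun A hA => hn A (mem_union_right _ hA)
    have h3 : Colex.IsInitSeg (A3L.tr n (cf k 𝒜.card)) k := by
      refine ⟨A3L.sized_tr (cf_uni k _), fun s t hs ht => ?_⟩
      rw [A3L.mem_tr] at hs ⊢
      refine cf_init hs (by rw [card_map]; exact ht.2) ?_
      rw [map_eq_image, map_eq_image]
      exact (Colex.toColex_image_lt_toColex_image Fin.val_strictMono).2 ht.1
    have h4 := kruskal_katona (𝒜 := A3L.tr n 𝒜) (A3L.sized_tr h)
      (by rw [A3L.card_tr h1, A3L.card_tr h2, cf_card hk]) h3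
    rw [A3L.card_shadow_tr h1, A3L.card_shadow_tr h2, cf_shadow_card] at h4
    exact h4

end Pool.Agent.H872.LK
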