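import Pool.Agent.H872.LK.Defs
import Pool.Agent.H872.LK.A1
import Pool.Agent.H872.LK.A2
import Pool.Agent.H872.LK.A3

/-! Subadditivity and gluing inequalities for `f`. -/

set_option autoImplicit false
open Finset
open scoped FinsetFamily

namespace Pool.Agent.H872.LK

namespace BL

theorem card_shadow_le {k : ℕ} {𝒜 : Finset (Finset ℕ)} (h : Uni k 𝒜) :
    (∂ 𝒜).card ≤ k * 𝒜.card := by
  have h1 : ∂ 𝒜 ⊆ 𝒜.biUnion (fun s => s.image (fun a => s.erase a)) := by
    intro t ht
    obtain ⟨s, hs, a, ha, rfl⟩ := mem_shadow_iff.1 ht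
    exact mem_biUnion.2 ⟨s, hs, mem_image_of_mem _ ha⟩
  calc (∂ 𝒜).card ≤ _ := card_le_card h1
    _ ≤ ∑ s ∈ 𝒜, (s.image (fun a => s.erase a)).card := card_biUnion_le
    _ ≤ ∑ s ∈ 𝒜, k := sum_le_sum (fun s hs => card_image_le.trans (h s hs).le)
    _ = k * 𝒜.card := by simp [mul_comm]

theorem f_zero_left (m : ℕ) : f 0 m = 0 := by
  simp [f]

theorem f1 {m : ℕ} (hm : 1 ≤ m) : f 1 m = 1 := by
  have h := f_rec (k := 0) (a := m) (y := 0) (by omega) (by omega)
  simpa [f_zero_left] using h

/-- A strict upper bound for the elements of the members. -/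
theorem exists_bound (𝒜 : Finset (Finset ℕ)) : ∃ M : ℕ, ∀ S ∈ 𝒜, ∀ z ∈ S, z < M := by
  refine ⟨(𝒜.sup id).sup id + 1, fun S hS z hz => ?_⟩
  have h1 : z ∈ 𝒜.sup id := by
    have h2 : S ⊆ 𝒜.sup id := Finset.le_sup (f := id) hS
    exact h2 hz
  have h3 : z ≤ (𝒜.sup id).sup id := Finset.le_sup (f := id) h1
  omega

theorem shadow_insert_family (w : ℕ) (A B : Finset (Finset ℕ)) (hB : ∀ b ∈ B, w ∉ b) :
    ∂ (A ∪ B.image (insert w)) ⊆ (∂ A ∪ B) ∪ (∂ B).image (insert w) := by
  intro t ht
  obtain ⟨s, hs, a, ha, rfl⟩ := mem_shadow_iff.1 ht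
  rcases mem_union.1 hs with hs | hs
  · exact mem_union_left _ (mem_union_left _ (erase_mem_shadow hs ha))
  · obtain ⟨b, hb, rfl⟩ := mem_image.1 hs
    by_cases haw : a = w
    · subst haw
      rw [erase_insert (hB b hb)]
      exact mem_union_left _ (mem_union_right _ hb)
    · have hab : a ∈ b := by
        rcases mem_insert.1 ha with h | h
        · exact absurd h haw
        · exact h
      rw [erase_insert_of_ne (fun h => haw h.symm)]
      exact mem_union_right _ (mem_image_of_mem _ (erase_mem_shadow hb hab))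

theorem f_add_le_succ (j x y : ℕ) :
    f (j + 2) (x + y) ≤ max (f (j + 2) x) y + f (j + 1) y := by
  obtain ⟨M1, hM1⟩ := exists_bound (cf (j + 2) x)
  obtain ⟨M2, hM2⟩ := exists_bound (cf (j + 1) y)
  set A := cf (j + 2) x with hA
  set B := cf (j + 1) y with hB
  set w := M1 + M2 with hw
  have hwA : ∀ S ∈ A, w ∉ S := fun S hS h => by have := hM1 S hS w h; omega
  have hwB : ∀ S ∈ B, w ∉ S := fun S hS h => by have := hM2 S hS w h; omega
  have hinj : Set.InjOn (insert w) (B : Set (Finset ℕ)) := by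
    intro S hS T hT h
    have h1 : (insert w S).erase w = (insert w T).erase w := by rw [h]
    rwa [erase_insert (hwB S hS), erase_insert (hwB T hT)] at h1
  have hcB : (B.image (insert w)).card = y := by
    rw [card_image_of_injOn hinj, hB, cf_card (by omega)]
  have hcA : A.card = x := by rw [hA, cf_card (by omega)]
  have hdisj : Disjoint A (B.image (insert w)) := by
    rw [disjoint_left]
    intro S hS hS2
    obtain ⟨b, _, rfl⟩ := mem_image.1 hS2
    exact hwA _ hS (mem_insert_self _ _)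
  have hcard : (A ∪ B.image (insert w)).card = x + y := by
    rw [card_union_of_disjoint hdisj, hcA, hcB]
  have huni : Uni (j + 2) (A ∪ B.image (insert w)) := by
    intro S hS
    rcases mem_union.1 hS with h | h
    · exact cf_uni _ _ S h
    · obtain ⟨b, hb, rfl⟩ := mem_image.1 h
      rw [card_insert_of_notMem (hwB b hb), cf_uni (j + 1) y b hb]
  have h1 := f_le_shadow huni
  rw [hcard] at h1
  have h2 := card_le_card (shadow_insert_family w A B hwB)
  have h3 : (∂ A ∪ B).card = max (f (j + 2) x) y := by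
    rw [hA, cf_shadow, hB]
    rcases le_total (f (j + 2) x) y with h | h
    · rw [union_eq_right.2 (cf_mono (j + 1) h), max_eq_right h, cf_card (by omega)]
    · rw [union_eq_left.2 (cf_mono (j + 1) h), max_eq_left h, cf_card (by omega)]
  have h4 : ((∂ B).image (insert w)).card ≤ f (j + 1) y := by
    rw [← cf_shadow_card (j + 1) y]
    exact card_image_le
  have h5 : ((∂ A ∪ B) ∪ (∂ B).image (insert w)).card ≤ (∂ A ∪ B).card +
      ((∂ B).image (insert w)).card := card_union_le _ _
  omega

theorem shadow_map (g : ℕ → ℕ) (B : Finset (Finset ℕ)) (hg : Function.Injective g) :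
    ∂ (B.image (fun S => S.image g)) ⊆ (∂ B).image (fun S => S.image g) := by
  intro t ht
  obtain ⟨s, hs, a, ha, rfl⟩ := mem_shadow_iff.1 ht
  obtain ⟨b, hb, rfl⟩ := mem_image.1 hs
  obtain ⟨z, hz, rfl⟩ := mem_image.1 ha
  refine mem_image.2 ⟨b.erase z, erase_mem_shadow hb hz, ?_⟩
  exact image_erase hg b z

end BL

open BL

theorem exists_f {k : ℕ} (hk : 1 ≤ k) (m : ℕ) :
    ∃ 𝒜 : Finset (Finset ℕ), Uni k 𝒜 ∧ 𝒜.card = m ∧ (∂ 𝒜).card = f k m :=
  ⟨cf k m, cf_uni k m, cf_card hk m, cf_shadow_card k m⟩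

theorem f_add_le (k x y : ℕ) : f (k + 1) (x + y) ≤ max (f (k + 1) x) y + f k y := by
  rcases k with _ | j
  · simp only [zero_add, f_zero_left, add_zero]
    rcases Nat.eq_zero_or_pos (x + y) with h | h
    · rw [h, f_zero]
      exact Nat.zero_le _
    · rw [f1 h]
      rcases Nat.eq_zero_or_pos x with hx | hx
      · exact le_max_of_le_right (by omega)
      · rw [f1 hx]
        exact le_max_left _ _
  · exact f_add_le_succ j x y

theorem f_glue {k x y : ℕ} (hx : 1 ≤ x) (hy : 1 ≤ y) :
    f k (x + y - 1) + k ≤ f k x + f k y := by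
  rcases Nat.eq_zero_or_pos k with rfl | hk
  · simp [f_zero_left]
  obtain ⟨A, hAu, hAc, hAs⟩ := exists_f hk x
  obtain ⟨B, hBu, hBc, hBs⟩ := exists_f hk y
  obtain ⟨A0, hA0⟩ : A.Nonempty := card_pos.1 (by omega)
  obtain ⟨B0, hB0⟩ : B.Nonempty := card_pos.1 (by omega)
  obtain ⟨M, hM⟩ := exists_bound A
  have hcard0 : B0.card = A0.card := by rw [hAu A0 hA0, hBu B0 hB0]
  let e : B0 ≃ A0 := Finset.equivOfCardEq hcard0
  let g : ℕ → ℕ := fun z => if h : z ∈ B0 then (e ⟨z, h⟩ : ℕ) else z + M
  have hg1 : ∀ z (h : z ∈ B0), g z = (e ⟨z, h⟩ : ℕ) := fun z h => by simp only [g, dif_pos h]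
  have hg2 : ∀ z, z ∉ B0 → g z = z + M := fun z h => by simp only [g, dif_neg h]
  have hgA : ∀ z ∈ B0, g z ∈ A0 := fun z h => by rw [hg1 z h]; exact (e ⟨z, h⟩).2
  have hginj : Function.Injective g := by
    intro u v huv
    by_cases hu : u ∈ B0
    · by_cases hv : v ∈ B0
      · rw [hg1 u hu, hg1 v hv] at huv
        have h1 := e.injective (Subtype.ext huv)
        exact congrArg Subtype.val h1
      · have h1 := hM A0 hA0 _ (hgA u hu)
        rw [huv, hg2 v hv] at h1
        omega
    · by_cases hv : v ∈ B0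
      · have h1 := hM A0 hA0 _ (hgA v hv)
        rw [← huv, hg2 u hu] at h1
        omega
      · rw [hg2 u hu, hg2 v hv] at huv
        omega
  have himg0 : B0.image g = A0 := by
    apply eq_of_subset_of_card_le
    · intro t ht
      obtain ⟨z, hz, rfl⟩ := mem_image.1 ht
      exact hgA z hz
    · rw [card_image_of_injective _ hginj, hcard0]
  set B' := B.image (fun S => S.image g) with hB'
  have hB'c : B'.card = y := by
    rw [hB', card_image_of_injective _ (image_injective hginj), hBc]
  have hB'u : Uni k B' := by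
    intro S hS
    obtain ⟨b, hb, rfl⟩ := mem_image.1 hS
    rw [card_image_of_injective _ hginj, hBu b hb]
  have hB'0 : A0 ∈ B' := mem_image.2 ⟨B0, hB0, himg0⟩
  have hinter : A ∩ B' = {A0} := by
    ext T
    rw [mem_inter, mem_singleton]
    constructor
    · rintro ⟨hTA, hTB⟩
      obtain ⟨B1, hB1, hT⟩ := mem_image.1 hTB
      have hsub : B1 ⊆ B0 := by
        intro z hz
        by_contra hzn
        have h1 : g z ∈ T := by
          rw [← hT]
          exact mem_image_of_mem g hz
        have h2 := hM T hTA _ h1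
        rw [hg2 z hzn] at h2
        omega
      have h3 : B1 = B0 := eq_of_subset_of_card_le hsub (by rw [hBu B1 hB1, hBu B0 hB0])
      rw [← hT, h3]
      exact himg0
    · rintro rfl
      exact ⟨hA0, hB'0⟩
  have hcard : (A ∪ B').card = x + y - 1 := by
    have h1 := card_union_add_card_inter A B'
    rw [hinter, card_singleton, hAc, hB'c] at h1
    omega
  have huni : Uni k (A ∪ B') := by
    intro S hS
    rcases mem_union.1 hS with h | h
    · exact hAu S h
    · exact hB'u S h
  have h1 := f_le_shadow huni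
  rw [hcard] at h1
  have hsh : ∂ (A ∪ B') ⊆ ∂ A ∪ ∂ B' := by
    intro t ht
    obtain ⟨s, hs, a, ha, rfl⟩ := mem_shadow_iff.1 ht
    rcases mem_union.1 hs with h | h
    · exact mem_union_left _ (erase_mem_shadow h ha)
    · exact mem_union_right _ (erase_mem_shadow h ha)
  have h2 := card_le_card hsh
  have h3 := card_union_add_card_inter (∂ A) (∂ B')
  have h4 : k ≤ (∂ A ∩ ∂ B').card := by
    have h5 : A0.image (fun a => A0.erase a) ⊆ ∂ A ∩ ∂ B' := by
      intro t ht
      obtain ⟨a, ha, rfl⟩ := mem_image.1 ht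
      exact mem_inter.2 ⟨erase_mem_shadow hA0 ha, erase_mem_shadow hB'0 ha⟩
    have h6 := card_le_card h5
    rw [card_image_of_injOn, hAu A0 hA0] at h6
    · exact h6
    · intro a ha b hb hab
      have hab' : A0.erase a = A0.erase b := hab
      by_contra hne
      have h7 : b ∈ A0.erase a := mem_erase.2 ⟨fun h => hne h.symm, hb⟩
      rw [hab'] at h7
      exact (notMem_erase b A0) h7
  have h5 : (∂ B').card ≤ f k y := by
    rw [← hBs]
    exact (card_le_card (shadow_map g B hginj)).trans card_image_le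
  omega

theorem f_le_mul {k : ℕ} (hk : 1 ≤ k) (m : ℕ) : f k m ≤ k * m := by
  obtain ⟨A, hAu, hAc, hAs⟩ := exists_f hk m
  rw [← hAs, ← hAc]
  exact card_shadow_le hAu

end Pool.Agent.H872.LK
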