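import Pool.Agent.H872.LK.A1
import Pool.Agent.H872.LK.B

/-! C1: the function K (Galois connection with f) and its inequalities. -/

set_option autoImplicit false
open Finset
open scoped FinsetFamily

namespace Pool.Agent.H872.LK

namespace C1L

lemma bdd {q m : ℕ} (hq : 1 ≤ q) : BddAbove {M | f (q + 1) M ≤ m} := by
  refine ⟨(m + q + 1).choose (q + 1), fun M hM => ?_⟩
  by_contra hcon
  push Not at hcon
  have h1 : f (q + 1) ((m + q + 1).choose (q + 1)) ≤ f (q + 1) M := f_mono (q + 1) hcon.le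
  rw [f_choose (by omega)] at h1
  have h2 : (m + q + 1).choose q = (m + q + 1).choose (m + 1) := by
    rw [← Nat.choose_symm_of_eq_add (n := m + q + 1) (a := m + 1) (b := q) (by omega)]
  have h3 : (m + 1 + 1).choose (m + 1) ≤ (m + q + 1).choose (m + 1) :=
    Nat.choose_le_choose _ (by omega)
  rw [Nat.choose_succ_self_right] at h3
  have h4 : f (q + 1) M ≤ m := hM
  omega

lemma f_choose_succ_le : ∀ k a : ℕ, f k (a.choose (k + 1)) ≤ a.choose k := by
  intro k
  induction k with
  | zero => intro a; simp [f]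
  | succ k ih =>
    intro a
    induction a with
    | zero => rw [Nat.choose_eq_zero_of_lt (by omega), f_zero]; exact Nat.zero_le _
    | succ a iha =>
      rw [Nat.choose_succ_succ a (k + 1), Nat.choose_succ_succ a k, add_comm (a.choose (k + 1))]
      refine (f_add_le k _ _).trans ?_
      have h1 := ih a
      have h2 : max (f (k + 1) (a.choose (k + 1 + 1))) (a.choose (k + 1)) ≤ a.choose (k + 1) :=
        max_le iha le_rfl
      calc _ ≤ a.choose (k + 1) + a.choose k := Nat.add_le_add h2 h1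
        _ = _ := by rw [Nat.succ_eq_add_one, add_comm]

lemma f_le_succ : ∀ k M : ℕ, f k M ≤ f (k + 1) M := by
  intro k
  induction k with
  | zero => intro M; simp [f]
  | succ k ih =>
    intro M
    rcases Nat.eq_zero_or_pos M with hM | hM
    · rw [hM, f_zero, f_zero]
    · obtain ⟨a, y, ha, hy, hMeq, -⟩ := exists_decomp (k + 1) M hM
      have h1 : f (k + 1 + 1) M = a.choose (k + 1) + f (k + 1) y := by
        rw [hMeq]; exact f_rec ha hy.le
      rw [h1]
      have h2 : f (k + 1) M ≤ max (f (k + 1) (a.choose (k + 1 + 1))) y + f k y := by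
        rw [hMeq]; exact f_add_le k _ _
      refine h2.trans (Nat.add_le_add (max_le (f_choose_succ_le (k + 1) a) hy.le) (ih y))

lemma f_anti {p q : ℕ} (hpq : p ≤ q) (M : ℕ) : f p M ≤ f q M := by
  induction hpq with
  | refl => exact le_rfl
  | step _ ih => exact ih.trans (f_le_succ _ _)

lemma f_le_linear (q M : ℕ) : f (q + 1) M ≤ 1 + q * M := by
  induction M with
  | zero => rw [f_zero]; exact Nat.zero_le _
  | succ M ih =>
    refine (f_add_le q M 1).trans ?_
    rw [f_one]
    have h1 : max (f (q + 1) M) 1 ≤ 1 + q * M := max_le ih (by omega)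
    calc _ ≤ 1 + q * M + q := Nat.add_le_add_right h1 _
      _ = 1 + q * (M + 1) := by ring

end C1L

theorem le_K_iff {q M m : ℕ} (hq : 1 ≤ q) : M ≤ K q m ↔ f (q + 1) M ≤ m := by
  have hb := C1L.bdd (m := m) hq
  constructor
  · intro h
    have hmem : K q m ∈ {M | f (q + 1) M ≤ m} :=
      Nat.sSup_mem ⟨0, by show f (q + 1) 0 ≤ m; rw [f_zero]; exact Nat.zero_le _⟩ hb
    exact (f_mono (q + 1) h).trans hmem
  · intro h
    exact le_csSup hb h

theorem K_mono {q : ℕ} (hq : 1 ≤ q) : Monotone (K q) := by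
  intro x y hxy
  exact (le_K_iff hq).2 (((le_K_iff hq).1 le_rfl).trans hxy)

theorem K_add_le {q : ℕ} (hq : 1 ≤ q) (x y : ℕ) :
    K (q + 1) x + min (K q y) x ≤ K (q + 1) (x + y) := by
  rw [le_K_iff (by omega)]
  refine (f_add_le (q + 1) _ _).trans (Nat.add_le_add (max_le ?_ (min_le_right _ _)) ?_)
  · exact (le_K_iff (by omega)).1 le_rfl
  · exact (f_mono (q + 1) (min_le_left _ _)).trans ((le_K_iff hq).1 le_rfl)

theorem K_anti {p q : ℕ} (hp : 1 ≤ p) (hpq : p ≤ q) (m : ℕ) : K q m ≤ K p m := by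
  rw [le_K_iff hp]
  exact (C1L.f_anti (Nat.succ_le_succ hpq) _).trans ((le_K_iff (hp.trans hpq)).1 le_rfl)

theorem le_of_K_le {q m j : ℕ} (hq : 1 ≤ q) (h : K q m ≤ j) : m ≤ q * (j + 1) := by
  by_contra hcon
  push Not at hcon
  have h1 : j + 1 ≤ K q m := by
    rw [le_K_iff hq]
    refine (C1L.f_le_linear q (j + 1)).trans ?_
    omega
  omega

end Pool.Agent.H872.LK
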