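import Pool.Agent.H872.LK.Defs
import Pool.Agent.H872.LK.A1
import Pool.Agent.H872.LK.C1

/-! C2: the recursion and the complement formula for `K` (helper264). -/

set_option autoImplicit false
open Finset
open scoped FinsetFamily

namespace Pool.Agent.H872.LK

namespace C2L

theorem K_choose' {q c : ℕ} (hq : 1 ≤ q) (hc : q ≤ c) :
    K q (c.choose q) = c.choose (q + 1) := by
  rcases hc.eq_or_lt with rfl | hlt
  · rw [Nat.choose_self, Nat.choose_succ_self]
    by_contra h
    have h1 : 1 ≤ K q 1 := Nat.one_le_iff_ne_zero.2 h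
    rw [le_K_iff hq, f_one] at h1
    omega
  · apply le_antisymm
    · by_contra h
      have h1 : c.choose (q + 1) + 1 ≤ K q (c.choose q) := by omega
      have h2 : 1 ≤ c.choose q := Nat.choose_pos hc
      rw [le_K_iff hq, f_rec hlt h2, f_one] at h1
      omega
    · rw [le_K_iff hq, f_choose hlt]

theorem K_rec' {q c y : ℕ} (hq : 1 ≤ q) (hc : q + 1 ≤ c) (hy : y ≤ c.choose q) :
    K (q + 1) (c.choose (q + 1) + y) = c.choose (q + 2) + K q y := by
  have hq1 : 1 ≤ q + 1 := by omega
  rcases hy.eq_or_lt with rfl | hlt
  · have h1 : c.choose (q + 1) + c.choose q = (c + 1).choose (q + 1) := by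
      rw [Nat.choose_succ_succ, add_comm]
    have h2 : (c + 1).choose (q + 1 + 1) = c.choose (q + 1) + c.choose (q + 1 + 1) :=
      Nat.choose_succ_succ _ _
    rw [h1, K_choose' hq1 (by omega), K_choose' hq (by omega), h2, add_comm]
  · have hM : f (q + 1) (K q y) ≤ y := (le_K_iff hq).1 le_rfl
    have hM' : y < f (q + 1) (K q y + 1) := by
      by_contra h
      have h1 : K q y + 1 ≤ K q y := (le_K_iff hq).2 (not_lt.1 h)
      omega
    have hM1 : K q y < c.choose (q + 1) := by
      by_contra h
      have h1 := f_mono (q + 1) (not_lt.1 h)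
      rw [f_choose hc] at h1
      omega
    rcases Nat.lt_or_ge c (q + 2) with h | h
    · have hcq : c = q + 1 := by omega
      subst hcq
      rw [Nat.choose_succ_self, Nat.choose_self] at *
      have hKy : K q y = 0 := by omega
      rw [hKy, add_zero]
      by_contra h0
      have h1 : 1 ≤ K (q + 1) (1 + y) := Nat.one_le_iff_ne_zero.2 h0
      rw [le_K_iff hq1, f_one] at h1
      have h2 : (q + 1).choose q = q + 1 := Nat.choose_succ_self_right q
      omega
    · apply le_antisymm
      · by_contra h0
        have h1 : c.choose (q + 2) + (K q y + 1) ≤ K (q + 1) (c.choose (q + 1) + y) := by omega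
        rw [le_K_iff hq1, f_rec h (by omega)] at h1
        omega
      · rw [le_K_iff hq1, f_rec h hM1.le]
        omega

theorem K_compl' (c : ℕ) : ∀ q g : ℕ, 1 ≤ q → q ≤ c → g ≤ c.choose q →
    K q (c.choose q - g) + f (c - q) g = c.choose (q + 1) := by
  have base : ∀ q g : ℕ, 1 ≤ q → g ≤ q.choose q →
      K q (q.choose q - g) + f (q - q) g = q.choose (q + 1) := by
    intro q g hq _
    have h1 : K q (q.choose q - g) ≤ K q (q.choose q) := K_mono hq (Nat.sub_le _ _)
    rw [K_choose' hq le_rfl, Nat.choose_succ_self] at h1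
    have h2 : f (q - q) g = 0 := by
      rw [Nat.sub_self]
      rfl
    rw [h2, Nat.choose_succ_self]
    omega
  induction c with
  | zero =>
    intro q g hq hc _
    omega
  | succ c ih =>
    intro q g hq hc hg
    rcases hc.eq_or_lt with rfl | hlt
    · exact base _ g hq hg
    · have hqc : q ≤ c := by omega
      obtain ⟨q', rfl⟩ : ∃ q', q = q' + 1 := ⟨q - 1, by omega⟩
      have hP : (c + 1).choose (q' + 1) = c.choose q' + c.choose (q' + 1) :=
        Nat.choose_succ_succ _ _
      have hP2 : (c + 1).choose (q' + 1 + 1) = c.choose (q' + 1) + c.choose (q' + 1 + 1) :=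
        Nat.choose_succ_succ _ _
      -- the case `g = C(c, q') + g'`
      have hbig : ∀ g', g = c.choose q' + g' → g' ≤ c.choose (q' + 1) →
          K (q' + 1) ((c + 1).choose (q' + 1) - g) + f (c + 1 - (q' + 1)) g =
            (c + 1).choose (q' + 1 + 1) := by
        intro g' hg' hg1
        have h1 := ih (q' + 1) g' hq hqc hg1
        have h2 : (c + 1).choose (q' + 1) - g = c.choose (q' + 1) - g' := by omega
        have h3 : c + 1 - (q' + 1) = (c - (q' + 1)) + 1 := by omega
        have h4 : c.choose q' = c.choose (c - (q' + 1) + 1) := by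
          rw [← Nat.choose_symm (show q' ≤ c by omega)]
          congr 1
          omega
        have h5 : c.choose (q' + 1) = c.choose (c - (q' + 1)) := (Nat.choose_symm hqc).symm
        have h6 : f (c - (q' + 1) + 1) g = c.choose (q' + 1) + f (c - (q' + 1)) g' := by
          rw [hg', h4, f_rec (by omega) (by rw [← h5]; exact hg1), ← h5]
        rw [h2, h3, h6, hP2]
        omega
      rcases Nat.lt_or_ge (c.choose q') g with hgb | hgs
      · exact hbig (g - c.choose q') (by omega) (by omega)
      · rcases Nat.eq_zero_or_pos q' with rfl | hq'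
        · rw [Nat.choose_zero_right] at hgs
          rcases Nat.eq_zero_or_pos g with rfl | hg0
          · rw [f_zero, Nat.sub_zero, K_choose' le_rfl (by omega), add_zero]
          · exact hbig 0 (by rw [Nat.choose_zero_right]; omega) (Nat.zero_le _)
        · have h1 := ih q' g hq' (by omega) hgs
          have h2 : (c + 1).choose (q' + 1) - g = c.choose (q' + 1) + (c.choose q' - g) := by omega
          have h3 : c + 1 - (q' + 1) = c - q' := by omega
          rw [h2, h3, K_rec' hq' hqc (Nat.sub_le _ _), hP2]
          change _ + _ = _ + c.choose (q' + 2)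
          omega

end C2L

theorem K_rec {q c y : ℕ} (hq : 1 ≤ q) (hc : q + 1 ≤ c) (hy : y ≤ c.choose q) :
    K (q + 1) (c.choose (q + 1) + y) = c.choose (q + 2) + K q y := C2L.K_rec' hq hc hy

theorem K_choose {q c : ℕ} (hq : 1 ≤ q) (hc : q ≤ c) : K q (c.choose q) = c.choose (q + 1) :=
  C2L.K_choose' hq hc

theorem K_compl {q c g : ℕ} (hq : 1 ≤ q) (hc : q ≤ c) (hg : g ≤ c.choose q) :
    K q (c.choose q - g) + f (c - q) g = c.choose (q + 1) := C2L.K_compl' c q g hq hc hg

end Pool.Agent.H872.LK
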