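import Pool.Agent.H872.LK.Defs
import Pool.Agent.H872.LK.A1
import Pool.Agent.H872.LK.A2
import Pool.Agent.H872.LK.A3
import Pool.Agent.H872.LK.C1

/-! Cliques of uniform families: link, deletion, bound by `K`. -/

set_option autoImplicit false
open Finset
open scoped FinsetFamily

namespace Pool.Agent.H872.LK

theorem mem_cl {q : ℕ} (hq : 1 ≤ q) {H : Finset (Finset ℕ)} {Z : Finset ℕ} :
    Z ∈ cl q H ↔ Z.card = q + 1 ∧ ∀ x ∈ Z, Z.erase x ∈ H := by
  unfold cl
  rw [mem_filter, mem_powersetCard]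
  constructor
  · rintro ⟨⟨_, h1⟩, h2⟩
    exact ⟨h1, h2⟩
  · rintro ⟨h1, h2⟩
    refine ⟨⟨fun y hy => ?_, h1⟩, h2⟩
    have h3 : 0 < (Z.erase y).card := by
      rw [card_erase_of_mem hy, h1]
      omega
    obtain ⟨x, hx⟩ := card_pos.1 h3
    rw [mem_erase] at hx
    have h4 : id (Z.erase x) ⊆ H.sup id := le_sup (f := id) (h2 x hx.2)
    exact h4 (mem_erase.2 ⟨fun h => hx.1 h.symm, hy⟩)

theorem cl_mono {q : ℕ} {H H' : Finset (Finset ℕ)} (h : H ⊆ H') : cl q H ⊆ cl q H' := by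
  intro Z hZ
  unfold cl at hZ ⊢
  rw [mem_filter, mem_powersetCard] at hZ ⊢
  exact ⟨⟨hZ.1.1.trans (sup_mono h), hZ.1.2⟩, fun x hx => h (hZ.2 x hx)⟩

theorem cl_le_K {q : ℕ} (hq : 1 ≤ q) {H : Finset (Finset ℕ)} (h : Uni q H) :
    (cl q H).card ≤ K q H.card := by
  rw [le_K_iff hq]
  have h1 : Uni (q + 1) (cl q H) := fun Z hZ => ((mem_cl hq).1 hZ).1
  refine (f_le_shadow h1).trans (card_le_card fun A hA => ?_)
  obtain ⟨Z, hZ, x, hx, rfl⟩ := mem_shadow_iff.1 hA
  exact ((mem_cl hq).1 hZ).2 x hx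

theorem exists_K {q : ℕ} (hq : 1 ≤ q) (m : ℕ) :
    ∃ H : Finset (Finset ℕ), Uni q H ∧ H.card = m ∧ K q m ≤ (cl q H).card := by
  refine ⟨cf q m, cf_uni q m, cf_card hq m, ?_⟩
  have h0 : 1 ≤ q + 1 := by omega
  have h1 : (cf (q + 1) (K q m)).card = K q m := cf_card h0 _
  rw [← h1]
  refine card_le_card fun Z hZ => ?_
  rw [mem_cl hq]
  refine ⟨cf_uni _ _ Z hZ, fun x hx => ?_⟩
  have h2 : Z.erase x ∈ ∂ (cf (q + 1) (K q m)) := mem_shadow_iff.2 ⟨Z, hZ, x, hx, rfl⟩
  have h3 : f (q + 1) (K q m) ≤ m := (le_K_iff hq).1 le_rfl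
  obtain ⟨k, rfl⟩ : ∃ k, q = k + 1 := ⟨q - 1, by omega⟩
  rw [cf_shadow] at h2
  exact cf_mono _ h3 h2

namespace C3L

theorem notMem_part {q : ℕ} {H : Finset (Finset ℕ)} (w : ℕ) :
    (cl (q + 1) H).filter (fun Z => w ∉ Z) = cl (q + 1) (H.nonMemberSubfamily w) := by
  have h0 : 1 ≤ q + 1 := by omega
  ext Z
  rw [mem_filter, mem_cl h0, mem_cl h0]
  constructor
  · rintro ⟨⟨h1, h2⟩, h3⟩
    refine ⟨h1, fun x hx => ?_⟩
    rw [mem_nonMemberSubfamily]
    exact ⟨h2 x hx, fun h => h3 (mem_of_mem_erase h)⟩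
  · rintro ⟨h1, h2⟩
    refine ⟨⟨h1, fun x hx => (mem_nonMemberSubfamily.1 (h2 x hx)).1⟩, fun h3 => ?_⟩
    have h4 : 0 < (Z.erase w).card := by
      rw [card_erase_of_mem h3, h1]
      omega
    obtain ⟨x, hx⟩ := card_pos.1 h4
    rw [mem_erase] at hx
    exact (mem_nonMemberSubfamily.1 (h2 x hx.2)).2
      (mem_erase.2 ⟨fun h => hx.1 h.symm, h3⟩)

theorem mem_part {q : ℕ} (hq : 1 ≤ q) {H : Finset (Finset ℕ)} (w : ℕ) :
    ((cl (q + 1) H).filter (fun Z => w ∈ Z)).card =
      (cl q (H.memberSubfamily w) ∩ H.nonMemberSubfamily w).card := by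
  have h0 : 1 ≤ q + 1 := by omega
  have h1 : (cl (q + 1) H).filter (fun Z => w ∈ Z) =
      (cl q (H.memberSubfamily w) ∩ H.nonMemberSubfamily w).image (insert w) := by
    ext Z
    rw [mem_filter, mem_cl h0, mem_image]
    constructor
    · rintro ⟨⟨h1, h2⟩, h3⟩
      refine ⟨Z.erase w, ?_, insert_erase h3⟩
      rw [mem_inter, mem_cl hq, mem_nonMemberSubfamily]
      refine ⟨⟨?_, fun x hx => ?_⟩, h2 w h3, notMem_erase w Z⟩
      · rw [card_erase_of_mem h3, h1]
        omega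
      · rw [mem_memberSubfamily]
        rw [mem_erase] at hx
        refine ⟨?_, fun h => ?_⟩
        · have h4 : insert w ((Z.erase w).erase x) = Z.erase x := by
            ext y
            simp only [mem_insert, mem_erase]
            constructor
            · rintro (rfl | h)
              · exact ⟨fun h => hx.1 h.symm, h3⟩
              · exact ⟨h.1, h.2.2⟩
            · rintro ⟨h5, h6⟩
              by_cases h7 : y = w
              · exact Or.inl h7
              · exact Or.inr ⟨h5, h7, h6⟩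
          rw [h4]
          exact h2 x hx.2
        · exact notMem_erase w Z (mem_of_mem_erase h)
    · rintro ⟨Z', hZ', rfl⟩
      rw [mem_inter, mem_cl hq, mem_nonMemberSubfamily] at hZ'
      obtain ⟨⟨h1, h2⟩, h3, h4⟩ := hZ'
      refine ⟨⟨?_, fun x hx => ?_⟩, mem_insert_self _ _⟩
      · rw [card_insert_of_notMem h4, h1]
      · rcases mem_insert.1 hx with rfl | hx
        · rw [erase_insert h4]
          exact h3
        · have h5 := h2 x hx
          rw [mem_memberSubfamily] at h5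
          have h6 : w ≠ x := by
            rintro rfl
            exact h4 hx
          rw [erase_insert_of_ne h6]
          exact h5.1
  rw [h1, card_image_of_injOn]
  intro A hA B hB hAB
  have hA' := (mem_nonMemberSubfamily.1 (mem_inter.1 (mem_coe.1 hA)).2).2
  have hB' := (mem_nonMemberSubfamily.1 (mem_inter.1 (mem_coe.1 hB)).2).2
  have h2 : (insert w A).erase w = (insert w B).erase w := congrArg (fun s => s.erase w) hAB
  rwa [erase_insert hA', erase_insert hB'] at h2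

end C3L

theorem cl_split {q : ℕ} (hq : 1 ≤ q) {H : Finset (Finset ℕ)} (h : Uni (q + 1) H) (w : ℕ) :
    (cl (q + 1) H).card = (cl (q + 1) (H.nonMemberSubfamily w)).card +
      (cl q (H.memberSubfamily w) ∩ H.nonMemberSubfamily w).card := by
  have h1 := card_filter_add_card_filter_not (s := cl (q + 1) H) (fun Z => w ∈ Z)
  rw [C3L.notMem_part, C3L.mem_part hq] at h1
  omega

end Pool.Agent.H872.LK
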