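import Pool.Agent.H872.LK.Defs
import Pool.Agent.H872.LK.A1
import Pool.Agent.H872.LK.A3
import Pool.Agent.H872.LK.B

/-! Families with small shadow live on few vertices. -/

set_option autoImplicit false
open Finset
open scoped FinsetFamily

namespace Pool.Agent.H872.LK

namespace DL

theorem member_shadow (w : ℕ) (A : Finset (Finset ℕ)) :
    (∂ A).memberSubfamily w = ∂ (A.memberSubfamily w) := by
  ext B
  rw [mem_memberSubfamily, mem_shadow_iff_insert_mem, mem_shadow_iff_insert_mem]
  constructor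
  · rintro ⟨⟨a, ha, hB⟩, hw⟩
    rw [mem_insert, not_or] at ha
    refine ⟨a, ha.2, ?_⟩
    rw [mem_memberSubfamily, Finset.insert_comm, mem_insert, not_or]
    exact ⟨hB, fun h => ha.1 h.symm, hw⟩
  · rintro ⟨a, ha, hB⟩
    rw [mem_memberSubfamily, Finset.insert_comm, mem_insert, not_or] at hB
    refine ⟨⟨a, ?_, hB.1⟩, hB.2.2⟩
    rw [mem_insert, not_or]
    exact ⟨fun h => hB.2.1 h.symm, ha⟩

theorem nonMember_shadow (w : ℕ) (A : Finset (Finset ℕ)) :
    (∂ A).nonMemberSubfamily w = A.memberSubfamily w ∪ ∂ (A.nonMemberSubfamily w) := by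
  ext B
  rw [mem_nonMemberSubfamily, mem_union, mem_memberSubfamily, mem_shadow_iff_insert_mem,
    mem_shadow_iff_insert_mem]
  constructor
  · rintro ⟨⟨a, ha, hB⟩, hw⟩
    by_cases haw : a = w
    · subst haw
      exact Or.inl ⟨hB, ha⟩
    · refine Or.inr ⟨a, ha, ?_⟩
      rw [mem_nonMemberSubfamily, mem_insert, not_or]
      exact ⟨hB, fun h => haw h.symm, hw⟩
  · rintro (⟨hB, hw⟩ | ⟨a, ha, hB⟩)
    · exact ⟨⟨w, hw, hB⟩, hw⟩
    · rw [mem_nonMemberSubfamily, mem_insert, not_or] at hB
      exact ⟨⟨a, ha, hB.1⟩, hB.2.2⟩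

/-- the shadow, split along a vertex -/
theorem card_shadow (w : ℕ) (A : Finset (Finset ℕ)) :
    (∂ A).card = (∂ (A.memberSubfamily w)).card +
      (A.memberSubfamily w ∪ ∂ (A.nonMemberSubfamily w)).card := by
  rw [← card_memberSubfamily_add_card_nonMemberSubfamily w (∂ A), member_shadow, nonMember_shadow]

theorem card_shadow_ge (w : ℕ) (A : Finset (Finset ℕ)) :
    (∂ (A.nonMemberSubfamily w)).card + (∂ (A.memberSubfamily w)).card ≤ (∂ A).card := by
  rw [card_shadow w A, add_comm]
  exact Nat.add_le_add_left (card_le_card subset_union_right) _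

theorem uni_member {k : ℕ} {A : Finset (Finset ℕ)} (h : Uni (k + 1) A) (w : ℕ) :
    Uni k (A.memberSubfamily w) := by
  intro s hs
  rw [mem_memberSubfamily] at hs
  have h1 := h _ hs.1
  rw [card_insert_of_notMem hs.2] at h1
  omega

theorem uni_nonMember {k : ℕ} {A : Finset (Finset ℕ)} (h : Uni k A) (w : ℕ) :
    Uni k (A.nonMemberSubfamily w) := fun s hs => h s (mem_nonMemberSubfamily.1 hs).1

theorem card_member (w : ℕ) (A : Finset (Finset ℕ)) :
    (A.memberSubfamily w).card = (A.filter (w ∈ ·)).card := by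
  unfold memberSubfamily
  refine card_image_of_injOn ?_
  intro s hs t ht hst
  rw [coe_filter] at hs ht
  simp only at hst
  rw [← insert_erase hs.2, ← insert_erase ht.2, hst]

theorem sub_sup {A : Finset (Finset ℕ)} {s : Finset ℕ} (hs : s ∈ A) : s ⊆ A.sup id :=
  Finset.le_sup (f := id) hs

theorem mem_sup_iff {A : Finset (Finset ℕ)} {x : ℕ} : x ∈ A.sup id ↔ ∃ s ∈ A, x ∈ s := by
  rw [Finset.mem_sup]
  rfl

theorem member_pos {A : Finset (Finset ℕ)} {w : ℕ} (hw : w ∈ A.sup id) :
    1 ≤ (A.memberSubfamily w).card := by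
  rw [card_member, Nat.one_le_iff_ne_zero, card_ne_zero]
  obtain ⟨s, hs, hws⟩ := mem_sup_iff.1 hw
  exact ⟨s, mem_filter.2 ⟨hs, hws⟩⟩

/-- double counting -/
theorem sum_member {k : ℕ} {A : Finset (Finset ℕ)} (h : Uni k A) :
    ∑ v ∈ A.sup id, (A.memberSubfamily v).card = k * A.card := by
  have h1 : ∀ v ∈ A.sup id, (A.memberSubfamily v).card = ∑ s ∈ A, if v ∈ s then 1 else 0 := by
    intro v _
    rw [card_member, card_filter]
  rw [sum_congr rfl h1, sum_comm]
  have h2 : ∀ s ∈ A, (∑ v ∈ A.sup id, if v ∈ s then 1 else 0) = k := by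
    intro s hs
    rw [← card_filter]
    have : (A.sup id).filter (· ∈ s) = s := by
      ext v
      rw [mem_filter]
      exact ⟨fun h => h.2, fun h => ⟨sub_sup hs h, h⟩⟩
    rw [this, h s hs]
  rw [sum_congr rfl h2, sum_const, smul_eq_mul, mul_comm]

/-- the shadow of a family whose members have no common facets -/
theorem shadow_disjoint {k : ℕ} {A : Finset (Finset ℕ)} (h : Uni k A)
    (hd : ∀ s ∈ A, ∀ t ∈ A, s ≠ t → ∀ a ∈ s, ∀ b ∈ t, s.erase a ≠ t.erase b) :
    (∂ A).card = k * A.card := by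
  have e : ∂ A = A.biUnion fun s => s.image fun a => s.erase a := by
    ext B
    rw [mem_shadow_iff, mem_biUnion]
    simp only [mem_image]
  rw [e, card_biUnion]
  · have h2 : ∀ s ∈ A, (s.image fun a => s.erase a).card = k := by
      intro s hs
      rw [card_image_of_injOn, h s hs]
      intro a ha b hb hab
      simp only at hab
      by_contra hne
      have h3 : a ∈ s.erase b := mem_erase.2 ⟨hne, ha⟩
      rw [← hab] at h3
      exact (notMem_erase a s) h3
    rw [sum_congr rfl h2, sum_const, smul_eq_mul, mul_comm]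
  · intro s hs t ht hst
    show Disjoint (s.image fun a => s.erase a) (t.image fun a => t.erase a)
    rw [Finset.disjoint_left]
    intro B hB hB'
    rw [mem_image] at hB hB'
    obtain ⟨a, ha, rfl⟩ := hB
    obtain ⟨b, hb, hab⟩ := hB'
    exact hd s hs t ht hst a ha b hb hab.symm

theorem f_two {k : ℕ} (hk : 1 ≤ k) : f k 2 = 2 * k - 1 := by
  obtain ⟨j, rfl⟩ : ∃ j, k = j + 1 := ⟨k - 1, by omega⟩
  have h1 := f_rec (k := j) (a := j + 1) (y := 1) le_rfl (by rw [Nat.choose_succ_self_right]; omega)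
  rw [Nat.choose_self, Nat.choose_succ_self_right, f_one] at h1
  have h2 : 1 + 1 = 2 := rfl
  rw [h2] at h1
  rw [h1]
  omega

/-- two members of a family in which at most one member misses a given vertex -/
theorem case_b_eq_k {k : ℕ} {A : Finset (Finset ℕ)} (h : Uni k A)
    (hV : k + 2 ≤ (A.sup id).card)
    (hb : ∀ w ∈ A.sup id, (A.nonMemberSubfamily w).card ≤ 1) : (∂ A).card = k * A.card := by
  refine shadow_disjoint h fun s hs t ht hst a ha b hb' heq => ?_
  -- the union has at most k + 1 elements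
  have h1 : s ∪ t ⊆ insert b s := by
    intro x hx
    rw [mem_union] at hx
    rw [mem_insert]
    rcases hx with hx | hx
    · exact Or.inr hx
    · by_cases hxb : x = b
      · exact Or.inl hxb
      · have h2 : x ∈ t.erase b := mem_erase.2 ⟨hxb, hx⟩
        rw [← heq] at h2
        exact Or.inr (mem_of_mem_erase h2)
  have h2 : (s ∪ t).card ≤ k + 1 := by
    refine (card_le_card h1).trans ((card_insert_le _ _).trans ?_)
    rw [h s hs]
  have h3 : (s ∪ t).card < (A.sup id).card := by omega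
  obtain ⟨w, hw, hwst⟩ : ∃ w ∈ A.sup id, w ∉ s ∪ t := by
    by_contra hcon
    push Not at hcon
    exact absurd (card_le_card (show A.sup id ⊆ s ∪ t from hcon)) (not_le.2 h3)
  rw [mem_union, not_or] at hwst
  have h4 := hb w hw
  rw [card_le_one] at h4
  exact hst (h4 s (mem_nonMemberSubfamily.2 ⟨hs, hwst.1⟩) t (mem_nonMemberSubfamily.2 ⟨ht, hwst.2⟩))

theorem exists_b {k t c : ℕ} (ht3 : 3 ≤ t) (ht : t ≤ c.choose k + 1) :
    ∃ b, k ≤ b ∧ b.choose k + 1 < t ∧ t ≤ (b + 1).choose k + 1 ∧ b + 1 ≤ c := by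
  classical
  have hex : ∃ m, t ≤ (k + m + 1).choose k + 1 := by
    refine ⟨c, ht.trans (Nat.add_le_add_right (Nat.choose_le_choose k (by omega)) 1)⟩
  set m := Nat.find hex with hm
  have h1 : t ≤ (k + m + 1).choose k + 1 := Nat.find_spec hex
  have h2 : (k + m).choose k + 1 < t := by
    rcases Nat.eq_zero_or_pos m with h0 | h0
    · rw [h0, add_zero, Nat.choose_self]; omega
    · have h3 := Nat.find_min hex (m := m - 1) (by omega)
      have h4 : k + (m - 1) + 1 = k + m := by omega
      rw [h4] at h3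
      omega
  refine ⟨k + m, by omega, h2, h1, ?_⟩
  by_contra hcon
  have h5 : c.choose k ≤ (k + m).choose k := Nat.choose_le_choose k (by omega)
  omega

/-- (L3) -/
theorem beta_le {j b : ℕ} {A : Finset (Finset ℕ)} (h : Uni (j + 1) A) (hb : j + 1 ≤ b)
    (ht : A.card ≤ (b + 1).choose (j + 1) + 1)
    (hbad : (∂ A).card + 2 ≤ f (j + 1) (A.card - 1) + (j + 1)) {w : ℕ} (hw : w ∈ A.sup id) :
    (A.nonMemberSubfamily w).card ≤ b.choose (j + 1) := by
  by_contra hcon
  push Not at hcon
  obtain ⟨x, hx⟩ := Nat.exists_eq_add_of_lt hcon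
  have hα := member_pos hw
  set α := (A.memberSubfamily w).card with hαd
  set β := (A.nonMemberSubfamily w).card with hβd
  have hsum : α + β = A.card := card_memberSubfamily_add_card_nonMemberSubfamily w A
  have hch : (b + 1).choose (j + 1) = b.choose j + b.choose (j + 1) := Nat.choose_succ_succ b j
  have hxα : x + α ≤ b.choose j := by omega
  have h1 := card_shadow_ge w A
  have h2 := f_le_shadow (uni_nonMember h w)
  have h3 := f_le_shadow (uni_member h w)
  rw [← hαd] at h3
  rw [← hβd] at h2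
  have h4 : f (j + 1) β = b.choose j + f j (1 + x) := by
    have : β = b.choose (j + 1) + (1 + x) := by omega
    rw [this]
    exact f_rec hb (by omega)
  have h5 : f (j + 1) (A.card - 1) = b.choose j + f j (x + α) := by
    have : A.card - 1 = b.choose (j + 1) + (x + α) := by omega
    rw [this]
    exact f_rec hb hxα
  have h6 := f_glue (k := j) (x := 1 + x) (y := α) (by omega) hα
  have h7 : 1 + x + α - 1 = x + α := by omega
  rw [h7] at h6
  omega

end DL

open DL in
theorem support_small (k c : ℕ) (𝒜 : Finset (Finset ℕ)) (hk : 3 ≤ k) (hc : k + 1 ≤ c)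
    (h : Uni k 𝒜) (hne : 1 ≤ 𝒜.card) (ht : 𝒜.card ≤ c.choose k + 1)
    (hbad : (∂ 𝒜).card + 2 ≤ f k (𝒜.card - 1) + k) : (𝒜.sup id).card ≤ c := by
  obtain ⟨j, rfl⟩ : ∃ j, k = j + 1 := ⟨k - 1, by omega⟩
  induction hn : 𝒜.card using Nat.strong_induction_on generalizing 𝒜 c with
  | _ t ih =>
  subst hn
  have hKK := f_le_shadow h
  -- at least three members
  have ht3 : 3 ≤ 𝒜.card := by
    by_contra hcon
    have h12 : 𝒜.card = 1 ∨ 𝒜.card = 2 := by omega
    rcases h12 with h1 | h2
    · rw [h1, Nat.sub_self, f_zero] at hbad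
      rw [h1, f_one] at hKK
      omega
    · rw [h2] at hbad hKK
      have h3 : 2 - 1 = 1 := rfl
      rw [h3, f_one] at hbad
      rw [f_two (by omega)] at hKK
      omega
  obtain ⟨b, hbk, hb1, hb2, hbc⟩ := exists_b ht3 ht
  by_contra hV
  push Not at hV
  have hV2 : b + 2 ≤ (𝒜.sup id).card := by omega
  have hL3 : ∀ w ∈ 𝒜.sup id, (𝒜.nonMemberSubfamily w).card ≤ b.choose (j + 1) :=
    fun w hw => beta_le h hbk hb2 hbad hw
  rcases hbk.eq_or_lt with hbe | hbl
  · -- the case b = k
    subst hbe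
    have h1 := case_b_eq_k h (by omega) (fun w hw => by
      have := hL3 w hw
      rwa [Nat.choose_self] at this)
    have h2 := f_le_mul (k := j + 1) (by omega) (𝒜.card - 1)
    have h3 : (j + 1) * 𝒜.card = (j + 1) * (𝒜.card - 1) + (j + 1) := by
      obtain ⟨m, hm⟩ : ∃ m, 𝒜.card = m + 1 := ⟨𝒜.card - 1, by omega⟩
      rw [hm, Nat.add_sub_cancel, mul_add, mul_one]
    omega
  -- the case b ≥ k + 1
  have hVne : (𝒜.sup id).Nonempty := by
    rw [← card_pos]; omega
  obtain ⟨w, hw, hmin⟩ := exists_min_image (𝒜.sup id) (fun v => (𝒜.memberSubfamily v).card) hVne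
  have hα := member_pos hw
  have hβle := hL3 w hw
  have hsum := card_memberSubfamily_add_card_nonMemberSubfamily w 𝒜
  have hUw := uni_nonMember h w
  have hUm := uni_member h w
  have hge := card_shadow_ge w 𝒜
  have hKw := f_le_shadow hUw
  have hKm := f_le_shadow hUm
  set α := (𝒜.memberSubfamily w).card with hαd
  set β := (𝒜.nonMemberSubfamily w).card with hβd
  have hdc : (b + 2) * α ≤ (j + 1) * 𝒜.card := by
    rw [← sum_member h]
    calc (b + 2) * α ≤ (𝒜.sup id).card * α := Nat.mul_le_mul_right _ hV2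
      _ = ∑ _v ∈ 𝒜.sup id, α := by rw [sum_const, smul_eq_mul]
      _ ≤ _ := sum_le_sum fun v hv => hmin v hv
  have ht5 : j + 4 ≤ 𝒜.card := by
    have h1 : (j + 2).choose (j + 1) ≤ b.choose (j + 1) := Nat.choose_le_choose _ (by omega)
    rw [Nat.choose_succ_self_right] at h1
    omega
  -- α is small
  have hβ1 : 1 ≤ β := by
    by_contra hcon
    have h0 : β = 0 := by omega
    have h1 : α = 𝒜.card := by omega
    rw [h1] at hdc
    have : (j + 1) * 𝒜.card < (b + 2) * 𝒜.card := Nat.mul_lt_mul_of_pos_right (by omega) (by omega)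
    omega
  have hclaim : α ≤ f (j + 1) (β - 1) := by
    rcases le_or_gt (j + 1) α with h1 | h1
    · have h2 := f_lym (k := j + 1) (b := b) (m := β - 1) (by omega) hbk (by omega)
      have h3 : (b + 1 - (j + 1)) * α ≤ (j + 1) * (β - 1) := by
        obtain ⟨e, he⟩ : ∃ e, b = j + 1 + e := ⟨b - (j + 1), by omega⟩
        obtain ⟨β', hβ'⟩ : ∃ β', β = β' + 1 := ⟨β - 1, by omega⟩
        have h4 : b + 1 - (j + 1) = e + 1 := by omega
        have h5 : β - 1 = β' := by omega
        rw [h4, h5]
        have h6 : (j + 1) * 𝒜.card = (j + 1) * β' + (j + 1) * α + (j + 1) := by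
          rw [← hsum, hβ']
          ring
        have h7 : (b + 2) * α = (e + 1) * α + (j + 1) * α + α := by
          rw [he]
          ring
        omega
      have h4 : 0 < b + 1 - (j + 1) := by omega
      exact Nat.le_of_mul_le_mul_left (h3.trans h2) h4
    · have h2 : 1 ≤ β - 1 := by omega
      have h3 := f_mono (j + 1) h2
      rw [f_one] at h3
      omega
  have hfa1 := f_add_le j (β - 1) α
  have he1 : β - 1 + α = 𝒜.card - 1 := by omega
  rw [he1, max_eq_left hclaim] at hfa1
  -- the induction hypothesis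
  have hbad' : (∂ (𝒜.nonMemberSubfamily w)).card + 2 ≤ f (j + 1) (β - 1) + (j + 1) := by
    omega
  have hsupp := ih β (by omega) b (𝒜.nonMemberSubfamily w) hβ1 (by omega) hUw
    (by omega) hbad' rfl
  -- a vertex seen only together with w
  obtain ⟨u, hu, huw⟩ : ∃ u ∈ (𝒜.sup id).erase w, u ∉ (𝒜.nonMemberSubfamily w).sup id := by
    by_contra hcon
    push Not at hcon
    have h1 := card_le_card (show (𝒜.sup id).erase w ⊆ (𝒜.nonMemberSubfamily w).sup id from hcon)
    rw [card_erase_of_mem hw] at h1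
    omega
  rw [mem_erase] at hu
  have hsub : 𝒜.filter (u ∈ ·) ⊆ 𝒜.filter (w ∈ ·) := by
    intro s hs
    rw [mem_filter] at hs ⊢
    refine ⟨hs.1, ?_⟩
    by_contra hws
    exact huw (mem_sup_iff.2 ⟨s, mem_nonMemberSubfamily.2 ⟨hs.1, hws⟩, hs.2⟩)
  have heq : 𝒜.filter (u ∈ ·) = 𝒜.filter (w ∈ ·) := by
    refine eq_of_subset_of_card_le hsub ?_
    rw [← card_member, ← card_member]
    exact hmin u hu.2
  have hdisj : Disjoint (𝒜.memberSubfamily w) (∂ (𝒜.nonMemberSubfamily w)) := by
    rw [Finset.disjoint_left]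
    intro B hB hB'
    rw [mem_memberSubfamily] at hB
    have h1 : insert w B ∈ 𝒜.filter (u ∈ ·) := by
      rw [heq, mem_filter]
      exact ⟨hB.1, mem_insert_self _ _⟩
    have h2 : u ∈ B := by
      have := (mem_filter.1 h1).2
      rw [mem_insert] at this
      exact this.resolve_left hu.1
    obtain ⟨s, hs, hBs⟩ := exists_subset_of_mem_shadow hB'
    exact huw (mem_sup_iff.2 ⟨s, hs, hBs h2⟩)
  have hcs := card_shadow w 𝒜
  rw [card_union_of_disjoint hdisj, ← hαd] at hcs
  have hfa2 := f_add_le j β (α - 1)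
  have he2 : β + (α - 1) = 𝒜.card - 1 := by omega
  have h8 : f (j + 1) (β - 1) ≤ f (j + 1) β := f_mono (j + 1) (by omega)
  rw [he2, max_eq_left (by omega)] at hfa2
  have h9 := f_small (j := j) (α := α) hα
  omega

end Pool.Agent.H872.LK
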