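import Mathlib

/-! Definitions for the proof of the frozen statement S09627 (Leck's gaps in shadow spectra). -/

set_option autoImplicit false
open Finset
open scoped FinsetFamily

namespace Pool.Agent.H872.LK

/-- `k`-uniform family. -/
def Uni (k : ℕ) (𝒜 : Finset (Finset ℕ)) : Prop := ∀ A ∈ 𝒜, A.card = k

/-- The largest `a` with `C(a,k) ≤ m` (used for `k ≥ 1`, `m ≥ 1`). -/
def top (k m : ℕ) : ℕ := Nat.findGreatest (fun a => a.choose k ≤ m) (m + k)

/-- The Kruskal–Katona function: minimum size of the shadow of `m` sets of size `k`. -/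
def f : ℕ → ℕ → ℕ
  | 0, _ => 0
  | k + 1, m =>
      if m = 0 then 0
      else (top (k + 1) m).choose k + f k (m - (top (k + 1) m).choose (k + 1))

/-- The family of the first `m` sets of size `k` in the colex order. -/
def cf : ℕ → ℕ → Finset (Finset ℕ)
  | 0, m => if m = 0 then ∅ else {∅}
  | k + 1, m =>
      if m = 0 then ∅
      else (range (top (k + 1) m)).powersetCard (k + 1) ∪
        (cf k (m - (top (k + 1) m).choose (k + 1))).image (insert (top (k + 1) m))

/-- The maximum number of `(q+1)`-cliques in a family of `m` sets of size `q` (for `q ≥ 1`). -/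
noncomputable def K (q m : ℕ) : ℕ := sSup {M | f (q + 1) M ≤ m}

/-- The `(q+1)`-cliques of a family of `q`-sets (for `q ≥ 1`): sets of size `q+1` all of whose
`q`-subsets are members. -/
def cl (q : ℕ) (H : Finset (Finset ℕ)) : Finset (Finset ℕ) :=
  ((H.sup id).powersetCard (q + 1)).filter (fun Z => ∀ x ∈ Z, Z.erase x ∈ H)

/-- `Corner ρ Q p c v d N`: the number `d` is a corner at level `Q` with top coefficient `c`;
`d = C(c,Q) + C(c',Q-1) + ... + C(c_s,s)` with `c > c' > ... > c_s`, `s = p+1 ≥ 2` and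
`c_s ≥ s + ρ`; `N = C(c,Q+1) + ... + C(c_s,s+1)` is the corresponding number of cliques and `v`
the number of vertices of the colex family. -/
inductive Corner (ρ : ℕ) : ℕ → ℕ → ℕ → ℕ → ℕ → ℕ → Prop
  | pure (q c : ℕ) (hq : 1 ≤ q) (hc : q + 1 + ρ ≤ c) :
      Corner ρ (q + 1) q c c (c.choose (q + 1)) (c.choose (q + 2))
  | step (q p c' v' d' N' c : ℕ) (h : Corner ρ q p c' v' d' N') (hc : c' < c) :
      Corner ρ (q + 1) p c (c + 1) (c.choose (q + 1) + d') (c.choose (q + 2) + N')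

/-- The family `H` of `Q`-sets contains the structure belonging to a corner. -/
def Conc (Q c v d N : ℕ) (H : Finset (Finset ℕ)) : Prop :=
  ∃ Y X : Finset ℕ, Y.card = c ∧ Y ⊆ X ∧ X.card ≤ v ∧ Y.powersetCard Q ⊆ H ∧
    d ≤ (H.filter (· ⊆ X)).card ∧ N ≤ (cl Q (H.filter (· ⊆ X))).card

/-- The structure theorem at level `Q`. -/
def SS (ρ Q : ℕ) : Prop :=
  ∀ p c v d N l : ℕ, ∀ H : Finset (Finset ℕ), Corner ρ Q p c v d N → Uni Q H → 1 ≤ l →
    K p l + 2 ≤ ρ → H.card + 1 = d + l → K Q (d + l) + 1 ≤ (cl Q H).card + ρ →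
    Conc Q c v d N H

/-- The numerical classification at level `q + 1`. -/
def Cls (ρ q : ℕ) : Prop :=
  ∀ p c v d N l δ : ℕ, Corner ρ (q + 1) p c v d N → 1 ≤ l → K p l + 2 ≤ ρ → l + 1 ≤ δ →
    (c + 2) * δ ≤ (q + 1) * (d + l - 1) →
    K (q + 1) (d + l - 1 - δ) + K q δ + ρ ≤ K (q + 1) (d + l) ∨
    (c.choose (q + 1) < d ∧
      ∃ p' c' v' d' N' : ℕ, Corner ρ (q + 1) p' c' v' d' N' ∧ p ≤ p' ∧ v' ≤ c ∧
        d' ≤ d + l - 1 - δ ∧ d + l - 1 - δ < d' + l)

end Pool.Agent.H872.LK
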