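import Pool.Agent.H872.LK.Defs
import Pool.Agent.H872.LK.C3

/-! Complementation: cliques versus shadow. -/

set_option autoImplicit false
open Finset
open scoped FinsetFamily

namespace Pool.Agent.H872.LK

namespace E1L

theorem mem_compl {W : Finset ℕ} {j : ℕ} {ℬ : Finset (Finset ℕ)} (hj : j ≤ W.card)
    {S : Finset ℕ} :
    S ∈ ((W.powersetCard j) \ ℬ).image (W \ ·) ↔ S ⊆ W ∧ S.card = W.card - j ∧ W \ S ∉ ℬ := by
  rw [Finset.mem_image]
  constructor
  · rintro ⟨B, hB, rfl⟩
    rw [Finset.mem_sdiff, Finset.mem_powersetCard] at hB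
    obtain ⟨⟨h1, h2⟩, h3⟩ := hB
    refine ⟨Finset.sdiff_subset, ?_, ?_⟩
    · rw [Finset.card_sdiff_of_subset h1, h2]
    · rwa [Finset.sdiff_sdiff_eq_self h1]
  · rintro ⟨h1, h2, h3⟩
    refine ⟨W \ S, ?_, Finset.sdiff_sdiff_eq_self h1⟩
    rw [Finset.mem_sdiff, Finset.mem_powersetCard]
    refine ⟨⟨Finset.sdiff_subset, ?_⟩, h3⟩
    rw [Finset.card_sdiff_of_subset h1, h2]
    omega

theorem card_compl {W : Finset ℕ} {j : ℕ} {ℬ : Finset (Finset ℕ)} (h : ℬ ⊆ W.powersetCard j) :
    (((W.powersetCard j) \ ℬ).image (W \ ·)).card + ℬ.card = W.card.choose j := by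
  rw [Finset.card_image_of_injOn, Finset.card_sdiff_add_card_eq_card h, Finset.card_powersetCard]
  intro a ha b hb hab
  have ha' : a ⊆ W := (Finset.mem_powersetCard.1 (Finset.mem_sdiff.1 (Finset.mem_coe.1 ha)).1).1
  have hb' : b ⊆ W := (Finset.mem_powersetCard.1 (Finset.mem_sdiff.1 (Finset.mem_coe.1 hb)).1).1
  have hab' : W \ a = W \ b := hab
  rw [← Finset.sdiff_sdiff_eq_self ha', hab', Finset.sdiff_sdiff_eq_self hb']

end E1L

open E1L

/-- Number of cliques and shadow of the complementary family. -/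
theorem compl_count {Q : ℕ} (W : Finset ℕ) (hQ : 1 ≤ Q) (hW : Q + 1 ≤ W.card)
    (𝒜 : Finset (Finset ℕ)) (h : ∀ A ∈ 𝒜, A ⊆ W ∧ A.card = W.card - Q) :
    (((W.powersetCard (W.card - Q)) \ 𝒜).image (W \ ·)).card + 𝒜.card = W.card.choose Q ∧
    Uni Q (((W.powersetCard (W.card - Q)) \ 𝒜).image (W \ ·)) ∧
    (cl Q (((W.powersetCard (W.card - Q)) \ 𝒜).image (W \ ·))).card + (∂ 𝒜).card
      = W.card.choose (Q + 1) := by
  have hk : W.card - Q ≤ W.card := Nat.sub_le _ _
  have hA : 𝒜 ⊆ W.powersetCard (W.card - Q) := by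
    intro A hA
    rw [Finset.mem_powersetCard]
    exact h A hA
  refine ⟨?_, ?_, ?_⟩
  · rw [card_compl hA, Nat.choose_symm (by omega)]
  · intro S hS
    rw [mem_compl hk] at hS
    omega
  · have hcl : cl Q (((W.powersetCard (W.card - Q)) \ 𝒜).image (W \ ·)) =
        ((W.powersetCard (W.card - (Q + 1))) \ (∂ 𝒜)).image (W \ ·) := by
      ext Z
      rw [mem_cl hQ, mem_compl (Nat.sub_le _ _)]
      constructor
      · rintro ⟨hZ, hZH⟩
        have hZW : Z ⊆ W := by
          intro x hx
          obtain ⟨y, hy, hyx⟩ : ∃ y ∈ Z, y ≠ x := Finset.exists_mem_ne (by omega) x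
          have h1 := (mem_compl hk).1 (hZH y hy)
          exact h1.1 (Finset.mem_erase.2 ⟨hyx.symm, hx⟩)
        refine ⟨hZW, by omega, ?_⟩
        intro hsh
        rw [Finset.mem_shadow_iff_insert_mem] at hsh
        obtain ⟨x, hx, hxA⟩ := hsh
        have hxW : x ∈ W := (h _ hxA).1 (Finset.mem_insert_self _ _)
        have hxZ : x ∈ Z := by
          by_contra hxZ
          exact hx (Finset.mem_sdiff.2 ⟨hxW, hxZ⟩)
        have h1 := ((mem_compl hk).1 (hZH x hxZ)).2.2
        apply h1
        have : W \ Z.erase x = insert x (W \ Z) := by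
          ext y
          simp only [Finset.mem_sdiff, Finset.mem_erase, Finset.mem_insert]
          constructor
          · rintro ⟨hy, hy'⟩
            by_cases hyx : y = x
            · exact Or.inl hyx
            · exact Or.inr ⟨hy, fun hyZ => hy' ⟨hyx, hyZ⟩⟩
          · rintro (rfl | ⟨hy, hy'⟩)
            · exact ⟨hxW, fun h => h.1 rfl⟩
            · exact ⟨hy, fun h => hy' h.2⟩
        rw [this]; exact hxA
      · rintro ⟨hZW, hZ, hsh⟩
        refine ⟨by omega, ?_⟩
        intro x hx
        rw [mem_compl hk]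
        refine ⟨(Finset.erase_subset _ _).trans hZW, ?_, ?_⟩
        · rw [Finset.card_erase_of_mem hx]; omega
        · intro hmem
          apply hsh
          rw [Finset.mem_shadow_iff_insert_mem]
          refine ⟨x, fun h => (Finset.mem_sdiff.1 h).2 hx, ?_⟩
          have : W \ Z.erase x = insert x (W \ Z) := by
            ext y
            simp only [Finset.mem_sdiff, Finset.mem_erase, Finset.mem_insert]
            constructor
            · rintro ⟨hy, hy'⟩
              by_cases hyx : y = x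
              · exact Or.inl hyx
              · exact Or.inr ⟨hy, fun hyZ => hy' ⟨hyx, hyZ⟩⟩
            · rintro (rfl | ⟨hy, hy'⟩)
              · exact ⟨hZW hx, fun h => h.1 rfl⟩
              · exact ⟨hy, fun h => hy' h.2⟩
          rw [← this]; exact hmem
    rw [hcl, card_compl, Nat.choose_symm hW]
    intro B hB
    rw [Finset.mem_shadow_iff_insert_mem] at hB
    obtain ⟨x, hx, hxA⟩ := hB
    have h1 := h _ hxA
    rw [Finset.card_insert_of_notMem hx] at h1
    rw [Finset.mem_powersetCard]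
    exact ⟨(Finset.subset_insert _ _).trans h1.1, by omega⟩

end Pool.Agent.H872.LK
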