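import Pool.Agent.H872.LK.Defs
import Pool.Agent.H872.LK.A1
import Pool.Agent.H872.LK.C1
import Pool.Agent.H872.LK.C2
import Pool.Agent.H872.LK.C3
import Pool.Agent.H872.LK.D
import Pool.Agent.H872.LK.E1

/-! Dense families with many cliques miss a vertex star. -/

set_option autoImplicit false
open Finset
open scoped FinsetFamily

namespace Pool.Agent.H872.LK

namespace E2L

/-- the complements of the missing sets -/
def Am (Q : ℕ) (W : Finset ℕ) (H : Finset (Finset ℕ)) : Finset (Finset ℕ) :=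
  (W.powersetCard Q \ H).image (W \ ·)

theorem mem_Am {Q : ℕ} {W : Finset ℕ} {H : Finset (Finset ℕ)} {A : Finset ℕ} :
    A ∈ Am Q W H ↔ ∃ e : Finset ℕ, e ⊆ W ∧ e.card = Q ∧ e ∉ H ∧ W \ e = A := by
  unfold Am
  simp only [mem_image, mem_sdiff, mem_powersetCard, and_assoc]

theorem sdiff_inj {W e e' : Finset ℕ} (he : e ⊆ W) (he' : e' ⊆ W) (h : W \ e = W \ e') :
    e = e' := by
  rw [← Finset.sdiff_sdiff_eq_self he, h, Finset.sdiff_sdiff_eq_self he']

theorem Am_sub {Q : ℕ} {W : Finset ℕ} {H : Finset (Finset ℕ)} :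
    ∀ A ∈ Am Q W H, A ⊆ W ∧ A.card = W.card - Q := by
  intro A hA
  obtain ⟨e, he, hc, -, rfl⟩ := mem_Am.1 hA
  exact ⟨Finset.sdiff_subset, by rw [Finset.card_sdiff_of_subset he, hc]⟩

theorem Am_compl {Q : ℕ} {W : Finset ℕ} {H : Finset (Finset ℕ)} (hQW : Q ≤ W.card)
    (hH : ∀ e ∈ H, e ⊆ W ∧ e.card = Q) :
    ((W.powersetCard (W.card - Q)) \ Am Q W H).image (W \ ·) = H := by
  ext e
  simp only [mem_image, mem_sdiff, mem_powersetCard]
  constructor
  · rintro ⟨B, ⟨⟨hB, hBc⟩, hBA⟩, rfl⟩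
    by_contra hn
    apply hBA
    refine mem_Am.2 ⟨W \ B, Finset.sdiff_subset, ?_, hn, Finset.sdiff_sdiff_eq_self hB⟩
    rw [Finset.card_sdiff_of_subset hB, hBc]
    omega
  · intro he
    obtain ⟨h1, h2⟩ := hH e he
    refine ⟨W \ e, ⟨⟨Finset.sdiff_subset, by rw [Finset.card_sdiff_of_subset h1, h2]⟩, ?_⟩,
      Finset.sdiff_sdiff_eq_self h1⟩
    intro hA
    obtain ⟨e', he', -, hn, h3⟩ := mem_Am.1 hA
    exact hn (sdiff_inj he' h1 h3 ▸ he)

end E2L

open E2L in
theorem exists_missing {Q c ρ : ℕ} {H : Finset (Finset ℕ)} {W : Finset ℕ} (hW : W.card = c + 1)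
    (hH : ∀ e ∈ H, e ⊆ W ∧ e.card = Q) (hQ : 1 ≤ Q) (hρ : 2 ≤ ρ) (hc : Q + ρ ≤ c)
    (hd : c.choose Q ≤ H.card) (hbad : K Q (H.card + 1) + 1 ≤ (cl Q H).card + ρ) :
    ∃ w ∈ W, (W.erase w).powersetCard Q ⊆ H := by
  obtain ⟨h1, -, h3⟩ := compl_count W hQ (by omega) (Am Q W H) Am_sub
  rw [Am_compl (by omega) hH, hW] at h1 h3
  -- the support of the missing sets
  have hsupp : ((Am Q W H).sup id).card ≤ c := by
    rcases Nat.eq_zero_or_pos (Am Q W H).card with h0 | hpos
    · rw [Finset.card_eq_zero.1 h0]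
      simp
    have hpas : (c + 1).choose Q = c.choose (Q - 1) + c.choose Q := by
      obtain ⟨q, rfl⟩ : ∃ q, Q = q + 1 := ⟨Q - 1, by omega⟩
      rw [Nat.choose_succ_succ, Nat.add_sub_cancel]
    have hsym : c.choose (Q - 1) = c.choose (c + 1 - Q) := by
      rw [← Nat.choose_symm (show Q - 1 ≤ c by omega)]
      congr 1
      omega
    rcases Nat.lt_or_ge 1 Q with hQ2 | hQ2
    · refine support_small (c + 1 - Q) c (Am Q W H) (by omega) (by omega) ?_ hpos (by omega) ?_
      · intro A hA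
        rw [(Am_sub A hA).2, hW]
      · have h4 := K_compl (q := Q) (c := c + 1) (g := (Am Q W H).card - 1) hQ (by omega)
          (by omega)
        have h5 : (c + 1).choose Q - ((Am Q W H).card - 1) = H.card + 1 := by omega
        rw [h5] at h4
        omega
    · obtain rfl : Q = 1 := by omega
      have h6 : (Am 1 W H).card = 1 := by
        have : c.choose (1 - 1) = 1 := by simp
        omega
      obtain ⟨B, hB⟩ := Finset.card_eq_one.1 h6
      have h7 := (Am_sub B (by rw [hB]; exact mem_singleton_self B)).2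
      rw [hB, Finset.sup_singleton, id, h7, hW]
      omega
  obtain ⟨w, hwW, hwA⟩ : ∃ w ∈ W, w ∉ (Am Q W H).sup id := by
    by_contra hcon
    push Not at hcon
    have := Finset.card_le_card (show W ⊆ (Am Q W H).sup id from hcon)
    omega
  refine ⟨w, hwW, ?_⟩
  intro e he
  rw [mem_powersetCard] at he
  obtain ⟨he1, he2⟩ := he
  by_contra hn
  apply hwA
  have heW : e ⊆ W := he1.trans (Finset.erase_subset _ _)
  have h8 : W \ e ∈ Am Q W H := mem_Am.2 ⟨e, heW, he2, hn, rfl⟩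
  have h9 : W \ e ≤ (Am Q W H).sup id := Finset.le_sup (f := id) h8
  apply h9
  rw [mem_sdiff]
  exact ⟨hwW, fun h => Finset.notMem_erase w W (he1 h)⟩

end Pool.Agent.H872.LK
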