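import Pool.Agent.H872.LK.Defs
import Pool.Agent.H872.LK.A1
import Pool.Agent.H872.LK.C1
import Pool.Agent.H872.LK.C2

/-! Corners. -/

set_option autoImplicit false
open Finset
open scoped FinsetFamily

namespace Pool.Agent.H872.LK

theorem Corner.basic {ρ Q p c v d N : ℕ} (h : Corner ρ Q p c v d N) :
    1 ≤ p ∧ p + 1 ≤ Q ∧ Q + ρ ≤ c ∧ c ≤ v ∧ v ≤ c + 1 ∧ c.choose Q ≤ d ∧
      c.choose (Q + 1) ≤ N ∧ d ≤ v.choose Q := by
  induction h with
  | pure q c hq hc =>
    exact ⟨hq, le_refl _, hc, le_refl _, by omega, le_refl _, le_refl _, le_refl _⟩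
  | step q p c' v' d' N' c h hc ih =>
    obtain ⟨h1, h2, h3, h4, h5, h6, h7, h8⟩ := ih
    have h9 : v'.choose q ≤ c.choose q := Nat.choose_le_choose q (by omega)
    have h10 := Nat.choose_succ_succ' c q
    refine ⟨h1, by omega, by omega, by omega, le_refl _, by omega, Nat.le_add_right _ _, ?_⟩
    omega

namespace GG

theorem aux {ρ Q p c v d N : ℕ} (h : Corner ρ Q p c v d N) :
    (v = c ∧ d = c.choose Q ∧ N = c.choose (Q + 1) ∧ p + 1 = Q) ∨
    (v = c + 1 ∧ ∃ q c' v' d' N', Q = q + 1 ∧ Corner ρ q p c' v' d' N' ∧ c' < c ∧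
      d = c.choose (q + 1) + d' ∧ N = c.choose (q + 2) + N') := by
  cases h with
  | pure q c hq hc => exact Or.inl ⟨rfl, rfl, rfl, rfl⟩
  | step q p c' v' d' N' c h hc => exact Or.inr ⟨rfl, q, c', v', d', N', rfl, h, hc, rfl, rfl⟩

theorem pos {ρ Q p c v d N : ℕ} (h : Corner ρ Q p c v d N) : 1 ≤ d := by
  obtain ⟨h1, h2, h3, h4, h5, h6, h7, h8⟩ := h.basic
  exact (Nat.choose_pos (by omega : Q ≤ c)).trans_le h6

theorem choose_ge (n r : ℕ) : r + 1 ≤ (n + 1 + r).choose (n + 1) := by
  induction n with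
  | zero => rw [Nat.zero_add, Nat.choose_one_right]; omega
  | succ n ih =>
    have h := Nat.choose_succ_succ' (n + 1 + r) (n + 1)
    have e : n + 1 + 1 + r = n + 1 + r + 1 := by ring
    rw [e, h]
    omega

theorem choose2 (q : ℕ) : q + 3 ≤ (q + 3).choose 2 := by
  induction q with
  | zero => decide
  | succ q ih =>
    have h1 : (q + 4).choose 2 = (q + 3).choose 1 + (q + 3).choose 2 :=
      Nat.choose_succ_succ' (q + 3) 1
    rw [Nat.choose_one_right] at h1
    change q + 1 + 3 ≤ (q + 4).choose 2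
    omega

theorem choose3 (q : ℕ) : (q + 2) * (q + 1) ≤ 2 * (q + 3).choose 3 := by
  induction q with
  | zero => decide
  | succ q ih =>
    have h1 : (q + 4).choose 3 = (q + 3).choose 2 + (q + 3).choose 3 :=
      Nat.choose_succ_succ' (q + 3) 2
    have h2 := choose2 q
    change (q + 1 + 2) * (q + 1 + 1) ≤ 2 * (q + 4).choose 3
    rw [h1]
    nlinarith

end GG

open GG

/-- A corner is pure if and only if it has no further vertex. -/
theorem Corner.pure_of_eq {ρ Q p c d N : ℕ} (h : Corner ρ Q p c c d N) :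
    d = c.choose Q ∧ N = c.choose (Q + 1) ∧ p + 1 = Q := by
  rcases aux h with h | h
  · exact h.2
  · exact absurd h.1 (by omega)

theorem Corner.eq_of_le {ρ Q p c v d N : ℕ} (h : Corner ρ Q p c v d N)
    (hd : d ≤ c.choose Q) : v = c := by
  rcases aux h with h | ⟨h1, q, c', v', d', N', rfl, h2, h3, h4, h5⟩
  · exact h.1
  · have := pos h2
    omega

theorem Corner.block {ρ Q p c v d N : ℕ} (h : Corner ρ Q p c v d N) {l : ℕ}
    (hl : l ≤ (p + 1 + ρ).choose p) :
    d + l ≤ (c + 1).choose Q ∧ K Q (d + l) = N + K p l := by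
  induction h with
  | pure q c hq hc =>
    have h1 : l ≤ c.choose q := hl.trans (Nat.choose_le_choose q hc)
    have h2 := Nat.choose_succ_succ' c q
    exact ⟨by omega, K_rec hq (by omega) h1⟩
  | step q p c' v' d' N' c h hc ih =>
    obtain ⟨h1, h2⟩ := ih hl
    obtain ⟨h3, h4, h5, -⟩ := h.basic
    have h6 : (c' + 1).choose q ≤ c.choose q := Nat.choose_le_choose q hc
    have h7 := Nat.choose_succ_succ' c q
    have h8 : d' + l ≤ c.choose q := h1.trans h6
    refine ⟨by omega, ?_⟩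
    rw [Nat.add_assoc, K_rec (by omega) (by omega) h8, h2, Nat.add_assoc]

theorem Corner.pred {ρ Q p c v d N : ℕ} (h : Corner ρ Q p c v d N) :
    K Q (d - 1) + ρ ≤ N := by
  induction h with
  | pure q c hq hc =>
    have h1 : 1 ≤ c.choose (q + 1) := Nat.choose_pos (by omega)
    have h2 := K_compl (q := q + 1) (c := c) (g := 1) (by omega) (by omega) h1
    rw [f_one] at h2
    change _ = c.choose (q + 2) at h2
    omega
  | step q p c' v' d' N' c h hc ih =>
    have h1 := pos h
    obtain ⟨h3, h4, h5, h51, h52, h53, h54, h55⟩ := h.basic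
    have h6 : v'.choose q ≤ c.choose q := Nat.choose_le_choose q (by omega)
    have h8 : d' - 1 ≤ c.choose q := by omega
    have e : c.choose (q + 1) + d' - 1 = c.choose (q + 1) + (d' - 1) := by omega
    rw [e, K_rec (by omega) (by omega) h8]
    omega

/-- Lower bound for a corner which is not pure. -/
theorem Corner.nonpure {ρ q p c v d N : ℕ} (h : Corner ρ (q + 1) p c v d N)
    (hd : c.choose (q + 1) < d) :
    p + 1 ≤ q ∧ c.choose (q + 2) + (q + ρ).choose (q + 1) ≤ N := by
  rcases aux h with h | ⟨h1, q', c', v', d', N', hq, h2, h3, h4, h5⟩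
  · omega
  · have hq' : q = q' := by omega
    subst hq'
    obtain ⟨h6, h7, h8, h81, h82, h83, h84, h85⟩ := h2.basic
    have h9 : (q + ρ).choose (q + 1) ≤ c'.choose (q + 1) := Nat.choose_le_choose _ h8
    exact ⟨h7, by omega⟩

theorem small_block {ρ p l : ℕ} (hp : 1 ≤ p) (h : K p l + 2 ≤ ρ) :
    l + 1 ≤ (p + 1 + ρ).choose p := by
  by_contra hcon
  have h1 : (p + 1 + ρ).choose p ≤ l := by omega
  have h2 := K_mono hp h1
  rw [K_choose hp (by omega)] at h2
  have h3 := choose_ge p ρ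
  omega

theorem num_pure {q ρ : ℕ} (hq : 1 ≤ q) (hρ : 2 ≤ ρ) :
    (q + 1) * (q * (ρ - 1)) < 2 * (q + ρ).choose q + (q + 1) := by
  obtain ⟨r, rfl⟩ := Nat.exists_eq_add_of_le hρ
  obtain ⟨q, rfl⟩ := Nat.exists_eq_add_of_le' hq
  have hb : 2 * (q + 1 + 2).choose (q + 1) = (q + 3) * (q + 2) := by
    have h1 : (q + 1 + 2).choose (q + 1) = (q + 3).choose 2 := by
      rw [← Nat.choose_symm (by omega : 2 ≤ q + 3)]
      congr 1
    rw [h1]
    have h2 := Nat.triangle_succ (q + 2)
    rw [Nat.choose_two_right]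
    have h3 : 2 ∣ (q + 3) * (q + 3 - 1) := by
      have := Nat.even_mul_pred_self (q + 3)
      exact this.two_dvd
    rw [Nat.mul_div_cancel' h3]
    rfl
  have hs : ∀ r, (q + 2) * (q + 1) ≤ 2 * (q + 1 + (2 + r)).choose q := by
    intro r
    have h1 : (q + 3).choose q ≤ (q + 1 + (2 + r)).choose q := Nat.choose_le_choose _ (by omega)
    have h2 : (q + 3).choose q = (q + 3).choose 3 := by
      rw [← Nat.choose_symm (by omega : 3 ≤ q + 3)]
      congr 1
    have h3 := choose3 q
    rw [← h2] at h3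
    exact h3.trans (Nat.mul_le_mul_left 2 h1)
  have e : 2 + r - 1 = r + 1 := by omega
  rw [e]
  induction r with
  | zero =>
    rw [Nat.add_zero, hb]
    nlinarith
  | succ r ih =>
    have h1 := hs r
    have h2 := Nat.choose_succ_succ' (q + 1 + (2 + r)) q
    have h3 : q + 1 + (2 + (r + 1)) = q + 1 + (2 + r) + 1 := by ring
    rw [h3, h2]
    have h4 := ih (by omega) (by omega)
    nlinarith

theorem num_struct {q ρ : ℕ} (hq : 2 ≤ q) (hρ : 2 ≤ ρ) :
    2 * ρ + (q - 1) * (ρ - 1) < (q + ρ).choose (q + 1) + 4 := by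
  obtain ⟨r, rfl⟩ := Nat.exists_eq_add_of_le hρ
  obtain ⟨q, rfl⟩ := Nat.exists_eq_add_of_le' hq
  have e : 2 + r - 1 = r + 1 := by omega
  have e2 : q + 2 - 1 = q + 1 := by omega
  rw [e, e2]
  induction r with
  | zero =>
    rw [Nat.add_zero, Nat.choose_succ_self_right]
    omega
  | succ r ih =>
    have h2 := Nat.choose_succ_succ' (q + 2 + (2 + r)) (q + 2)
    have h3 : q + 2 + (2 + (r + 1)) = q + 2 + (2 + r) + 1 := by ring
    have h5 : (q + 3).choose (q + 2) ≤ (q + 2 + (2 + r)).choose (q + 2) :=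
      Nat.choose_le_choose _ (by omega)
    rw [Nat.choose_succ_self_right] at h5
    have h4 := ih (by omega) (by omega)
    rw [h3, h2]
    nlinarith

end Pool.Agent.H872.LK
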