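import Pool.Agent.H872.LK.Defs
import Pool.Agent.H872.LK.C1
import Pool.Agent.H872.LK.C3
import Pool.Agent.H872.LK.G

/-! Numerical inequality from the structure theorem (disjoint union). -/

set_option autoImplicit false
open Finset
open scoped FinsetFamily

namespace Pool.Agent.H872.LK

namespace HL

/-- the even copy -/
def ev (n : ℕ) : ℕ := 2 * n

/-- the odd copy -/
def od (n : ℕ) : ℕ := 2 * n + 1

theorem ev_inj : Function.Injective ev := fun x y h => by unfold ev at h; omega

theorem od_inj : Function.Injective od := fun x y h => by unfold od at h; omega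

/-- image of a family -/
def im (g : ℕ → ℕ) (H : Finset (Finset ℕ)) : Finset (Finset ℕ) := H.image (Finset.image g)

theorem card_im {g : ℕ → ℕ} (hg : Function.Injective g) (H : Finset (Finset ℕ)) :
    (im g H).card = H.card :=
  card_image_of_injective _ (Finset.image_injective hg)

theorem uni_im {q : ℕ} {g : ℕ → ℕ} (hg : Function.Injective g) {H : Finset (Finset ℕ)}
    (h : Uni q H) : Uni q (im g H) := by
  intro A hA
  obtain ⟨B, hB, rfl⟩ := mem_image.1 hA
  rw [card_image_of_injective _ hg]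
  exact h B hB

theorem im_cl {q : ℕ} (hq : 1 ≤ q) {g : ℕ → ℕ} (hg : Function.Injective g)
    (H : Finset (Finset ℕ)) : im g (cl q H) ⊆ cl q (im g H) := by
  intro A hA
  obtain ⟨Z, hZ, rfl⟩ := mem_image.1 hA
  rw [mem_cl hq] at hZ ⊢
  refine ⟨by rw [card_image_of_injective _ hg]; exact hZ.1, ?_⟩
  intro y hy
  obtain ⟨x, hx, rfl⟩ := mem_image.1 hy
  rw [← Finset.image_erase hg]
  exact mem_image_of_mem _ (hZ.2 x hx)

theorem even_of_im {H : Finset (Finset ℕ)} {A : Finset ℕ} (hA : A ∈ im ev H) {x : ℕ}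
    (hx : x ∈ A) : x % 2 = 0 := by
  obtain ⟨B, _, rfl⟩ := mem_image.1 hA
  obtain ⟨y, _, rfl⟩ := mem_image.1 hx
  unfold ev; omega

theorem odd_of_im {H : Finset (Finset ℕ)} {A : Finset ℕ} (hA : A ∈ im od H) {x : ℕ}
    (hx : x ∈ A) : x % 2 = 1 := by
  obtain ⟨B, _, rfl⟩ := mem_image.1 hA
  obtain ⟨y, _, rfl⟩ := mem_image.1 hx
  unfold od; omega

theorem disj {q : ℕ} (hq : 1 ≤ q) {H1 H2 : Finset (Finset ℕ)} (h : Uni q H1) :
    Disjoint (im ev H1) (im od H2) := by
  rw [Finset.disjoint_left]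
  intro A hA hA'
  have hc := uni_im ev_inj h A hA
  obtain ⟨x, hx⟩ := Finset.card_pos.1 (by omega : 0 < A.card)
  have h1 := even_of_im hA hx
  have h2 := odd_of_im hA' hx
  omega

theorem uni_cl {q : ℕ} (hq : 1 ≤ q) (H : Finset (Finset ℕ)) : Uni (q + 1) (cl q H) :=
  fun _ hZ => ((mem_cl hq).1 hZ).1

/-- the disjoint union -/
theorem exists_union {q : ℕ} (hq : 1 ≤ q) (a δ : ℕ) :
    ∃ H1 H2 : Finset (Finset ℕ), Uni q (im ev H1 ∪ im od H2) ∧ (im ev H1).card = a ∧
      (im od H2).card = δ ∧ (im ev H1 ∪ im od H2).card = a + δ ∧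
      K q a + K q δ ≤ (cl q (im ev H1 ∪ im od H2)).card := by
  obtain ⟨H1, hu1, hc1, hk1⟩ := exists_K hq a
  obtain ⟨H2, hu2, hc2, hk2⟩ := exists_K hq δ
  refine ⟨H1, H2, ?_, ?_, ?_, ?_, ?_⟩
  · intro A hA
    rcases mem_union.1 hA with hA | hA
    · exact uni_im ev_inj hu1 A hA
    · exact uni_im od_inj hu2 A hA
  · rw [card_im ev_inj, hc1]
  · rw [card_im od_inj, hc2]
  · rw [card_union_of_disjoint (disj hq hu1), card_im ev_inj, card_im od_inj, hc1, hc2]
  · have h1 : im ev (cl q H1) ∪ im od (cl q H2) ⊆ cl q (im ev H1 ∪ im od H2) := by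
      apply union_subset
      · exact (im_cl hq ev_inj H1).trans (cl_mono subset_union_left)
      · exact (im_cl hq od_inj H2).trans (cl_mono subset_union_right)
    have h2 := card_le_card h1
    rw [card_union_of_disjoint (disj (by omega : 1 ≤ q + 1) (uni_cl hq H1)), card_im ev_inj,
      card_im od_inj] at h2
    omega

end HL

open HL

theorem num0 {ρ q : ℕ} (hρ : 2 ≤ ρ) (hS : SS ρ q) {p c v d N l a δ : ℕ}
    (hC : Corner ρ q p c v d N) (hl : 1 ≤ l) (hK : K p l + 2 ≤ ρ) (hs : a + δ + 1 = d + l)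
    (ha : a < d) (hδ : δ < d) : K q a + K q δ + ρ ≤ K q (d + l) := by
  obtain ⟨hp1, hpq, hqc, hcv, hvc, -, -, -⟩ := hC.basic
  have hq2 : 2 ≤ q := by omega
  have hq : 1 ≤ q := by omega
  by_contra hcon
  obtain ⟨H1, H2, hu, hca, hcd, hcard, hcl⟩ := exists_union hq a δ
  obtain ⟨Y, X, hY, hYX, hX, hYH, hd, -⟩ := hS p c v d N l (im ev H1 ∪ im od H2) hC hu hl hK
    (by omega) (by omega)
  have hXY : (X \ Y).card ≤ 1 := by
    rw [card_sdiff_of_subset hYX]
    omega
  -- all members of `Y` have the same parity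
  have hpar : (∀ y ∈ Y, y % 2 = 0) ∨ (∀ y ∈ Y, y % 2 = 1) := by
    by_contra hne
    push Not at hne
    obtain ⟨⟨y, hy, hy0⟩, z, hz, hz0⟩ := hne
    have hyz : y ≠ z := by rintro rfl; omega
    have hsub : ({y, z} : Finset ℕ) ⊆ Y := by
      intro t ht
      simp only [mem_insert, mem_singleton] at ht
      rcases ht with rfl | rfl <;> assumption
    obtain ⟨u, hu1, hu2, hu3⟩ := Finset.exists_subsuperset_card_eq hsub
      (by rw [card_pair hyz]; exact hq2) (by omega : q ≤ Y.card)
    have huH := hYH (mem_powersetCard.2 ⟨hu2, hu3⟩)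
    have hyu : y ∈ u := hu1 (by simp)
    have hzu : z ∈ u := hu1 (by simp)
    rcases mem_union.1 huH with h | h
    · have := even_of_im h hyu
      omega
    · have := odd_of_im h hzu
      omega
  -- a member of `H` contained in `X` meets `Y`
  have hmeet : ∀ e ∈ im ev H1 ∪ im od H2, e ⊆ X → ∃ y ∈ e, y ∈ Y := by
    intro e he heX
    by_contra hno
    push Not at hno
    have h1 : e ⊆ X \ Y := fun t ht => mem_sdiff.2 ⟨heX ht, hno t ht⟩
    have h2 := card_le_card h1
    have h3 := hu e he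
    omega
  rcases hpar with hpar | hpar
  · have h1 : (im ev H1 ∪ im od H2).filter (· ⊆ X) ⊆ im ev H1 := by
      intro e he
      obtain ⟨he, heX⟩ := mem_filter.1 he
      obtain ⟨y, hye, hyY⟩ := hmeet e he heX
      rcases mem_union.1 he with h | h
      · exact h
      · have h2 := odd_of_im h hye
        have h3 := hpar y hyY
        omega
    have h2 := card_le_card h1
    omega
  · have h1 : (im ev H1 ∪ im od H2).filter (· ⊆ X) ⊆ im od H2 := by
      intro e he
      obtain ⟨he, heX⟩ := mem_filter.1 he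
      obtain ⟨y, hye, hyY⟩ := hmeet e he heX
      rcases mem_union.1 he with h | h
      · have h2 := even_of_im h hye
        have h3 := hpar y hyY
        omega
      · exact h
    have h2 := card_le_card h1
    omega

end Pool.Agent.H872.LK
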