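import Pool.Agent.H872.LK.Defs
import Pool.Agent.H872.LK.A1
import Pool.Agent.H872.LK.B
import Pool.Agent.H872.LK.C1
import Pool.Agent.H872.LK.C2
import Pool.Agent.H872.LK.G
import Pool.Agent.H872.LK.H

/-! The numerical classification of the degrees of a vertex. -/

set_option autoImplicit false
open Finset
open scoped FinsetFamily

namespace Pool.Agent.H872.LK

namespace IL

theorem r2 {q c D δ : ℕ} (hq : 1 ≤ q) (hc : q + 1 ≤ c) (hD : 1 ≤ D) (hDδ : D ≤ δ)
    (hδ : δ < c.choose q) :
    K (q + 1) ((c + 1).choose (q + 1) + D - 1 - δ) + K q δ + (c - q) ≤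
      K (q + 1) ((c + 1).choose (q + 1) + D) := by
  obtain ⟨g, hg⟩ : ∃ g, g = δ + 1 - D := ⟨_, rfl⟩
  have e1 : (c + 1).choose (q + 1) = c.choose q + c.choose (q + 1) := Nat.choose_succ_succ' c q
  have e2 : (c + 1).choose (q + 2) = c.choose (q + 1) + c.choose (q + 2) :=
    Nat.choose_succ_succ' c (q + 1)
  have e3 : (c + 1).choose q ≥ c.choose q := Nat.choose_le_choose q (Nat.le_succ c)
  have h1 : (c + 1).choose (q + 1) + D - 1 - δ = c.choose (q + 1) + (c.choose q - g) := by omega
  have h2 : K (q + 1) (c.choose (q + 1) + (c.choose q - g)) =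
      c.choose (q + 2) + K q (c.choose q - g) := K_rec hq hc (Nat.sub_le _ _)
  have h3 := K_compl (q := q) (c := c) (g := g) hq (by omega) (by omega)
  have h4 := K_compl (q := q) (c := c) (g := c.choose q - δ) hq (by omega) (by omega)
  have h5 := K_compl (q := q) (c := c) (g := c.choose q - D) hq (by omega) (by omega)
  have h6 : K (q + 1) ((c + 1).choose (q + 1) + D) = (c + 1).choose (q + 2) + K q D :=
    K_rec hq (by omega) (by omega)
  have h7 := f_glue (k := c - q) (x := g) (y := c.choose q - δ) (by omega) (by omega)
  have e4 : c.choose q - (c.choose q - δ) = δ := by omega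
  have e5 : c.choose q - (c.choose q - D) = D := by omega
  have e6 : g + (c.choose q - δ) - 1 = c.choose q - D := by omega
  rw [e4] at h4
  rw [e5] at h5
  rw [e6] at h7
  rw [h1, h2, h6]
  omega

/-- The pure case. -/
theorem cls_pure {ρ q c l δ : ℕ} (hρ : 2 ≤ ρ) (hq : 1 ≤ q) (hc : q + 1 + ρ ≤ c) (hl : 1 ≤ l)
    (hK : K q l + 2 ≤ ρ) (hδ : l + 1 ≤ δ)
    (havg : (c + 2) * δ ≤ (q + 1) * (c.choose (q + 1) + l - 1)) :
    K (q + 1) (c.choose (q + 1) + l - 1 - δ) + K q δ + ρ ≤ K (q + 1) (c.choose (q + 1) + l) := by
  obtain ⟨c, rfl⟩ : ∃ c', c = c' + 1 := ⟨c - 1, by omega⟩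
  have hlt : δ < c.choose q := by
    by_contra hcon
    push Not at hcon
    -- (c+3) δ ≥ (c+3) M₁
    have hl2 : l ≤ q * (ρ - 1) := by
      have := le_of_K_le (q := q) (m := l) (j := ρ - 2) hq (by omega)
      have e : ρ - 2 + 1 = ρ - 1 := by omega
      rwa [e] at this
    have hm : (q + 1) * (c + 1).choose (q + 1) = (c + 1) * c.choose q := by
      have := Nat.add_one_mul_choose_eq c q
      -- (c+1) * c.choose q = (c+1).choose (q+1) * (q+1)
      rw [Nat.mul_comm (q + 1)]; exact this.symm
    have hnum := num_pure (q := q) (ρ := ρ) hq hρ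
    have hmono : (q + ρ).choose q ≤ c.choose q := Nat.choose_le_choose q (by omega)
    have h1 : (c + 1 + 2) * c.choose q ≤ (c + 1 + 2) * δ := Nat.mul_le_mul_left _ hcon
    have h2 : (q + 1) * ((c + 1).choose (q + 1) + l - 1) =
        (q + 1) * (c + 1).choose (q + 1) + (q + 1) * (l - 1) := by
      rw [← Nat.mul_add]; congr 1; omega
    have h3 : (q + 1) * (l - 1) + (q + 1) = (q + 1) * l := by
      obtain ⟨l', rfl⟩ : ∃ l', l = l' + 1 := ⟨l - 1, by omega⟩
      simp [Nat.mul_add]
    have h4 : (q + 1) * l ≤ (q + 1) * (q * (ρ - 1)) := Nat.mul_le_mul_left _ hl2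
    have h5 : (c + 1 + 2) * c.choose q = (c + 1) * c.choose q + 2 * c.choose q := by ring
    omega
  have h := r2 (q := q) (c := c) (D := l) (δ := δ) hq (by omega) hl (by omega) hlt
  omega

end IL

open IL in
theorem cls_one {ρ : ℕ} (hρ : 2 ≤ ρ) : Cls ρ 1 := by
  intro p c v d N l δ hC hl hK hδ havg
  cases hC with
  | pure q c hq hc =>
    left
    exact cls_pure hρ hq hc hl hK hδ havg
  | step q p c' v' d' N' c h hc =>
    have := h.basic
    omega

open IL in
theorem cls_succ {ρ q : ℕ} (hρ : 2 ≤ ρ) (hq : 1 ≤ q) (hS : SS ρ (q + 1)) (hI : Cls ρ q) :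
    Cls ρ (q + 1) := by
  intro p c v d N l δ hC hl hK hδ havg
  cases hC with
  | pure q c hq hc =>
    left
    exact cls_pure hρ hq hc hl hK hδ havg
  | step q p c' v' d' N' c h hc =>
    obtain ⟨c, rfl⟩ : ∃ c0, c = c0 + 1 := ⟨c - 1, by omega⟩
    obtain ⟨b1, b2, b3, b4, b5, b6, b7, b8⟩ := h.basic
    have hsb := small_block (ρ := ρ) (p := p) (l := l) b1 hK
    obtain ⟨k1, k2⟩ := h.block (l := l) (by omega)
    have k3 : (c' + 1).choose (q + 1) ≤ (c + 1).choose (q + 1) :=
      Nat.choose_le_choose _ (by omega)
    have hpos : 0 < c'.choose (q + 1) := Nat.choose_pos (by omega)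
    have e1 : (c + 1).choose (q + 1 + 1) = c.choose (q + 1) + c.choose (q + 2) :=
      Nat.choose_succ_succ' c (q + 1)
    have e2 : (c + 1).choose (q + 1 + 2) = c.choose (q + 2) + c.choose (q + 3) :=
      Nat.choose_succ_succ' c (q + 2)
    have e3 : (c + 1).choose (q + 1) = c.choose q + c.choose (q + 1) :=
      Nat.choose_succ_succ' c q
    have KD : K (q + 1 + 1) ((c + 1).choose (q + 1 + 1) + d' + l) =
        (c + 1).choose (q + 1 + 2) + K (q + 1) (d' + l) := by
      have h := K_rec (q := q + 1) (c := c + 1) (y := d' + l) (by omega) (by omega) (by omega)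
      rw [← Nat.add_assoc ((c + 1).choose (q + 1 + 1)) d' l] at h
      exact h
    rcases Nat.lt_or_ge δ (d' + l) with hA | hB
    · obtain ⟨a, ha⟩ : ∃ a, a = d' + l - 1 - δ := ⟨_, rfl⟩
      have ha' : (c + 1).choose (q + 1 + 1) + d' + l - 1 - δ = (c + 1).choose (q + 1 + 1) + a := by
        omega
      rcases Nat.lt_or_ge a l with hal | hal
      · right
        refine ⟨by omega, q + 1, c + 1, c + 1, (c + 1).choose (q + 1 + 1), (c + 1).choose (q + 1 + 2),
          Corner.pure (q + 1) (c + 1) (by omega) (by omega), by omega, le_refl _, by omega,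
          by omega⟩
      · left
        have h0 := num0 (q := q + 1) hρ hS h hl hK (a := a) (δ := δ) (by omega) (by omega)
          (by omega)
        have h1 : K (q + 1 + 1) ((c + 1).choose (q + 1 + 1) + a) =
            (c + 1).choose (q + 1 + 2) + K (q + 1) a :=
          K_rec (q := q + 1) (c := c + 1) (by omega) (by omega) (by omega)
        rw [ha', h1, KD]
        omega
    · rcases Nat.lt_or_ge δ (c.choose (q + 1)) with hM | hM
      · left
        have h := r2 (q := q + 1) (c := c) (D := d' + l) (δ := δ) (by omega) (by omega)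
          (by omega) hB hM
        rw [← Nat.add_assoc] at h
        omega
      · obtain ⟨y, rfl⟩ : ∃ y, δ = c.choose (q + 1) + y := ⟨δ - c.choose (q + 1), by omega⟩
        have hm : (q + 1 + 1) * (c + 1).choose (q + 1 + 1) = (c + 1) * c.choose (q + 1) := by
          rw [Nat.mul_comm (q + 1 + 1)]; exact (Nat.add_one_mul_choose_eq c (q + 1)).symm
        have avg1 : (c + 3) * y + 2 * c.choose (q + 1) ≤ (q + 2) * (d' + l - 1) := by
          have h2 : (q + 1 + 1) * ((c + 1).choose (q + 1 + 1) + d' + l - 1) =
              (q + 1 + 1) * (c + 1).choose (q + 1 + 1) + (q + 1 + 1) * (d' + l - 1) := by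
            rw [← Nat.mul_add]; congr 1; omega
          have h3 : (c + 1 + 2) * (c.choose (q + 1) + y) =
              (c + 1) * c.choose (q + 1) + 2 * c.choose (q + 1) + (c + 3) * y := by ring
          rw [h2, h3, hm] at havg
          have : (q + 1 + 1) = q + 2 := rfl
          rw [this] at havg
          omega
        have hyD : y ≤ d' + l - 1 := by
          by_contra hcon
          push Not at hcon
          have : (q + 2) * (d' + l - 1) ≤ (c + 3) * y := Nat.mul_le_mul (by omega) (by omega)
          have : 0 < c.choose (q + 1) := Nat.choose_pos (by omega)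
          omega
        have hym : y < c.choose q := by
          by_contra hcon
          push Not at hcon
          have g1 : c.choose (q + 1) * (q + 1) = c.choose q * (c - q) :=
            Nat.choose_succ_right_eq c q
          have g2 : (c + 3) * c.choose q ≤ (c + 3) * y := Nat.mul_le_mul_left _ hcon
          have g3 : (q + 2) * (d' + l - 1) + (q + 2) ≤ (q + 2) * (c.choose q + c.choose (q + 1)) := by
            rw [← Nat.mul_add_one]
            exact Nat.mul_le_mul_left _ (by omega)
          have g4 : (q + 2) * (c.choose q + c.choose (q + 1)) =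
              (q + 2) * c.choose q + c.choose (q + 1) * (q + 1) + c.choose (q + 1) := by ring
          have g5 : (c + 3) * c.choose q = (q + 2) * c.choose q + c.choose q * (c - q) +
              c.choose q := by
            obtain ⟨j, rfl⟩ : ∃ j, c = q + j := ⟨c - q, by omega⟩
            have : q + j - q = j := by omega
            rw [this]; ring
          have : 0 < c.choose (q + 1) := Nat.choose_pos (by omega)
          omega
        have r1 : (c + 1).choose (q + 1 + 1) + d' + l - 1 - (c.choose (q + 1) + y) =
            c.choose (q + 1 + 1) + (d' + l - 1 - y) := by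
          have : c.choose (q + 1 + 1) = c.choose (q + 2) := rfl
          omega
        have r3 : K (q + 1 + 1) (c.choose (q + 1 + 1) + (d' + l - 1 - y)) =
            c.choose (q + 1 + 2) + K (q + 1) (d' + l - 1 - y) :=
          K_rec (q := q + 1) (c := c) (by omega) (by omega) (by omega)
        have r4 : K (q + 1) (c.choose (q + 1) + y) = c.choose (q + 2) + K q y :=
          K_rec (q := q) (c := c) hq (by omega) (by omega)
        have e4 : c.choose (q + 1 + 2) = c.choose (q + 3) := rfl
        have e5 : c.choose (q + 1 + 1) = c.choose (q + 2) := rfl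
        -- reduction to level `q + 1`
        have red : K (q + 1) (d' + l - 1 - y) + K q y + ρ ≤ K (q + 1) (d' + l) →
            K (q + 1 + 1) ((c + 1).choose (q + 1 + 1) + d' + l - 1 - (c.choose (q + 1) + y)) +
              K (q + 1) (c.choose (q + 1) + y) + ρ ≤
              K (q + 1 + 1) ((c + 1).choose (q + 1 + 1) + d' + l) := by
          intro hh
          rw [r1, r3, r4, KD]
          omega
        rcases lt_trichotomy y l with hyl | hyl | hyl
        · right
          have hc0 : c' < c := by
            by_contra hcon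
            have : c' = c := by omega
            subst this
            omega
          refine ⟨by omega, p, c, c + 1, c.choose (q + 1 + 1) + d', c.choose (q + 1 + 2) + N',
            Corner.step (q + 1) p c' v' d' N' c h hc0, le_refl _, le_refl _, ?_, ?_⟩
          · rw [r1]; omega
          · rw [r1]; omega
        · left
          apply red
          subst hyl
          have hp := h.pred
          have ha := K_anti (p := p) (q := q) b1 (by omega) y
          have : d' + y - 1 - y = d' - 1 := by omega
          rw [this, k2]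
          omega
        · have avg2 : (c' + 2) * y ≤ (q + 1) * (d' + l - 1) := by
            have i1 : (c' + 2) * y ≤ (c + 2) * y := Nat.mul_le_mul_right _ (by omega)
            have i2 : (c + 3) * y = (c + 2) * y + y := by ring
            have i3 : (q + 2) * (d' + l - 1) = (q + 1) * (d' + l - 1) + (d' + l - 1) := by ring
            omega
          rcases hI p c' v' d' N' l y h hl hK hyl avg2 with hh | ⟨_, p2, c2, v2, d2, N2, h2, hp2,
            hv2, hd2, hd3⟩
          · left; exact red hh
          · right
            obtain ⟨t1, t2, t3, t4, t5, t6, t7, t8⟩ := h2.basic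
            rcases Nat.lt_or_ge c2 c with hc2 | hc2
            · refine ⟨by omega, p2, c, c + 1, c.choose (q + 1 + 1) + d2,
                c.choose (q + 1 + 2) + N2, Corner.step (q + 1) p2 c2 v2 d2 N2 c h2 hc2, hp2,
                le_refl _, ?_, ?_⟩
              · rw [r1]; omega
              · rw [r1]; omega
            · have hcv : v2 = c2 := by omega
              have hcc : c2 = c := by omega
              subst hcv
              obtain ⟨u1, u2, u3⟩ := h2.pure_of_eq
              subst hcc
              refine ⟨by omega, q + 1, v2 + 1, v2 + 1, (v2 + 1).choose (q + 1 + 1),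
                (v2 + 1).choose (q + 1 + 2), Corner.pure (q + 1) (v2 + 1) (by omega) (by omega),
                by omega, le_refl _, ?_, ?_⟩
              · rw [r1, e1]; omega
              · rw [r1, e1]; omega

end Pool.Agent.H872.LK
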