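import Pool.Agent.H872.LK.Defs
import Pool.Agent.H872.LK.A1
import Pool.Agent.H872.LK.C1
import Pool.Agent.H872.LK.C2
import Pool.Agent.H872.LK.C3
import Pool.Agent.H872.LK.E2
import Pool.Agent.H872.LK.G

/-! The structure theorem. -/

set_option autoImplicit false
open Finset
open scoped FinsetFamily

namespace Pool.Agent.H872.LK

namespace JL

theorem mem_supp {H : Finset (Finset ℕ)} {x : ℕ} : x ∈ H.sup id ↔ ∃ e ∈ H, x ∈ e := by
  rw [Finset.mem_sup]; simp

theorem uni_mem {q : ℕ} {H : Finset (Finset ℕ)} (h : Uni (q + 1) H) (w : ℕ) :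
    Uni q (H.memberSubfamily w) := by
  intro A hA
  rw [mem_memberSubfamily] at hA
  have := h _ hA.1
  rw [card_insert_of_notMem hA.2] at this
  omega

theorem uni_non {q : ℕ} {H : Finset (Finset ℕ)} (h : Uni q H) (w : ℕ) :
    Uni q (H.nonMemberSubfamily w) := by
  intro A hA
  rw [mem_nonMemberSubfamily] at hA
  exact h _ hA.1

theorem card_mem (H : Finset (Finset ℕ)) (w : ℕ) :
    (H.memberSubfamily w).card = (H.filter (w ∈ ·)).card := by
  rw [memberSubfamily, card_image_of_injOn]
  apply (erase_injOn' _).mono
  simp

theorem card_split (H : Finset (Finset ℕ)) (w : ℕ) :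
    (H.memberSubfamily w).card + (H.nonMemberSubfamily w).card = H.card :=
  card_memberSubfamily_add_card_nonMemberSubfamily w H

theorem deg_pos {H : Finset (Finset ℕ)} {w : ℕ} (hw : w ∈ H.sup id) :
    1 ≤ (H.memberSubfamily w).card := by
  rw [mem_supp] at hw
  obtain ⟨e, he, hwe⟩ := hw
  rw [card_mem]
  exact Finset.card_pos.2 ⟨e, by simp [he, hwe]⟩

theorem sum_deg {Q : ℕ} {H : Finset (Finset ℕ)} (h : Uni Q H) :
    ∑ v ∈ H.sup id, (H.memberSubfamily v).card = Q * H.card := by
  have h1 := sum_card_bipartiteAbove_eq_sum_card_bipartiteBelow (s := H.sup id) (t := H)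
    (fun (v : ℕ) (e : Finset ℕ) => v ∈ e)
  have h2 : ∑ v ∈ H.sup id, (H.memberSubfamily v).card =
      ∑ v ∈ H.sup id, (bipartiteAbove (fun (v : ℕ) (e : Finset ℕ) => v ∈ e) H v).card := by
    apply sum_congr rfl
    intro v _
    rw [card_mem]; rfl
  have h3 : ∑ e ∈ H, (bipartiteBelow (fun (v : ℕ) (e : Finset ℕ) => v ∈ e) (H.sup id) e).card =
      ∑ e ∈ H, Q := by
    apply sum_congr rfl
    intro e he
    have : bipartiteBelow (fun (v : ℕ) (e : Finset ℕ) => v ∈ e) (H.sup id) e = e := by
      ext x
      simp only [bipartiteBelow, mem_filter, mem_supp]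
      exact ⟨fun hx => hx.2, fun hx => ⟨⟨e, he, hx⟩, hx⟩⟩
    rw [this]; exact h e he
  rw [h2, h1, h3, sum_const, smul_eq_mul, Nat.mul_comm]

theorem exists_min {Q : ℕ} {H : Finset (Finset ℕ)} (h : Uni Q H) (hne : (H.sup id).Nonempty) :
    ∃ w ∈ H.sup id, (∀ v ∈ H.sup id, (H.memberSubfamily w).card ≤ (H.memberSubfamily v).card) ∧
      (H.sup id).card * (H.memberSubfamily w).card ≤ Q * H.card := by
  obtain ⟨w, hw, hmin⟩ := exists_min_image (H.sup id) (fun v => (H.memberSubfamily v).card) hne
  refine ⟨w, hw, hmin, ?_⟩
  rw [← sum_deg h, ← smul_eq_mul]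
  exact card_nsmul_le_sum _ _ _ hmin

/-- Bound for the number of cliques through a vertex. -/
theorem cl_del {q : ℕ} (hq : 1 ≤ q) {H : Finset (Finset ℕ)} (h : Uni (q + 1) H) (w : ℕ) :
    (cl (q + 1) H).card ≤ (cl (q + 1) (H.nonMemberSubfamily w)).card +
      min (K q (H.memberSubfamily w).card) (H.nonMemberSubfamily w).card := by
  rw [cl_split hq h w]
  apply Nat.add_le_add_left
  apply le_min
  · exact (card_le_card inter_subset_left).trans (cl_le_K hq (uni_mem h w))
  · exact card_le_card inter_subset_right

/-- Deletion of a vertex preserves the defect condition. -/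
theorem bad_del {q ρ : ℕ} (hq : 1 ≤ q) {H : Finset (Finset ℕ)} (h : Uni (q + 1) H) (w : ℕ)
    (hbad : K (q + 1) (H.card + 1) + 1 ≤ (cl (q + 1) H).card + ρ) :
    K (q + 1) ((H.nonMemberSubfamily w).card + 1) + 1 ≤
      (cl (q + 1) (H.nonMemberSubfamily w)).card + ρ := by
  have h1 := cl_del hq h w
  have h2 := K_add_le hq ((H.nonMemberSubfamily w).card + 1) (H.memberSubfamily w).card
  have h3 := card_split H w
  have h4 : (H.nonMemberSubfamily w).card + 1 + (H.memberSubfamily w).card = H.card + 1 := by
    omega
  rw [h4] at h2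
  have h5 : min (K q (H.memberSubfamily w).card) (H.nonMemberSubfamily w).card ≤
      min (K q (H.memberSubfamily w).card) ((H.nonMemberSubfamily w).card + 1) :=
    min_le_min_left _ (by omega)
  omega

theorem conc_mono {Q c v d N : ℕ} {H H' : Finset (Finset ℕ)} (hs : H' ⊆ H)
    (h : Conc Q c v d N H') : Conc Q c v d N H := by
  obtain ⟨Y, X, h1, h2, h3, h4, h5, h6⟩ := h
  have hf : H'.filter (· ⊆ X) ⊆ H.filter (· ⊆ X) := filter_subset_filter _ hs
  exact ⟨Y, X, h1, h2, h3, h4.trans hs, h5.trans (card_le_card hf),
    h6.trans (card_le_card (cl_mono hf))⟩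

theorem cl_complete {q : ℕ} (hq : 1 ≤ q) {Y : Finset ℕ} {H : Finset (Finset ℕ)}
    (h : Y.powersetCard q ⊆ H) : Y.powersetCard (q + 1) ⊆ cl q H := by
  intro Z hZ
  rw [mem_powersetCard] at hZ
  rw [mem_cl hq]
  refine ⟨hZ.2, fun x hx => h ?_⟩
  rw [mem_powersetCard]
  refine ⟨(erase_subset _ _).trans hZ.1, ?_⟩
  rw [card_erase_of_mem hx, hZ.2]; rfl

/-- A complete family on a set contains the structure of a pure corner. -/
theorem conc_pure {q c : ℕ} (hq : 1 ≤ q) {Y : Finset ℕ} {H : Finset (Finset ℕ)} (hY : Y.card = c)
    (h : Y.powersetCard q ⊆ H) : Conc q c c (c.choose q) (c.choose (q + 1)) H := by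
  have h1 : Y.powersetCard q ⊆ H.filter (· ⊆ Y) := by
    intro e he
    rw [mem_filter]
    exact ⟨h he, (mem_powersetCard.1 he).1⟩
  refine ⟨Y, Y, hY, Subset.refl _, hY.le, h, ?_, ?_⟩
  · calc c.choose q = (Y.powersetCard q).card := by rw [card_powersetCard, hY]
      _ ≤ _ := card_le_card h1
  · calc c.choose (q + 1) = (Y.powersetCard (q + 1)).card := by rw [card_powersetCard, hY]
      _ ≤ _ := card_le_card (cl_complete hq h1)

theorem sub_supp {H : Finset (Finset ℕ)} {e : Finset ℕ} (he : e ∈ H) : e ⊆ H.sup id := by
  intro x hx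
  rw [mem_supp]; exact ⟨e, he, hx⟩

theorem struct_bound {q s : ℕ} (hq : 1 ≤ q) {H : Finset (Finset ℕ)} (hU : Uni (q + 1) H)
    {w z : ℕ} (hzw : z ≠ w) (hdeg : (H.memberSubfamily w).card ≤ (H.memberSubfamily z).card)
    (hE : ((H.nonMemberSubfamily w).filter (z ∈ ·)).card ≤ s) :
    (cl q (H.memberSubfamily w) ∩ H.nonMemberSubfamily w).card ≤ s + K q s := by
  set G := H.memberSubfamily w with hG
  set S := cl q G ∩ H.nonMemberSubfamily w with hS
  have hGU : Uni q G := uni_mem hU w
  have h1 : S.card = (S.filter (z ∈ ·)).card + (S.filter (¬ z ∈ ·)).card :=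
    (card_filter_add_card_filter_not (s := S) (fun e => z ∈ e)).symm
  have h2 : (S.filter (z ∈ ·)).card ≤ s := by
    refine (card_le_card ?_).trans hE
    intro Z hZ
    rw [mem_filter, hS, mem_inter] at hZ
    rw [mem_filter]
    exact ⟨hZ.1.2, hZ.2⟩
  have h3 : S.filter (¬ z ∈ ·) ⊆ cl q (G.filter (¬ z ∈ ·)) := by
    intro Z hZ
    rw [mem_filter, hS, mem_inter, mem_cl hq] at hZ
    rw [mem_cl hq]
    refine ⟨hZ.1.1.1, fun x hx => ?_⟩
    rw [mem_filter]
    exact ⟨hZ.1.1.2 x hx, fun h => hZ.2 (mem_of_mem_erase h)⟩
  have h4 : (G.filter (¬ z ∈ ·)).card ≤ (H.filter (fun e => w ∈ e ∧ ¬ z ∈ e)).card := by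
    have : G.filter (¬ z ∈ ·) ⊆ (H.filter (fun e => w ∈ e ∧ ¬ z ∈ e)).image (fun e => e.erase w) := by
      intro e he
      rw [mem_filter, hG, mem_memberSubfamily] at he
      rw [mem_image]
      refine ⟨insert w e, ?_, erase_insert he.1.2⟩
      rw [mem_filter]
      refine ⟨he.1.1, mem_insert_self _ _, ?_⟩
      rw [mem_insert]
      rintro (h | h)
      · exact hzw h
      · exact he.2 h
    exact (card_le_card this).trans card_image_le
  have h5 : (H.filter (w ∈ ·)).card = (H.filter (fun e => w ∈ e ∧ z ∈ e)).card +
      (H.filter (fun e => w ∈ e ∧ ¬ z ∈ e)).card := by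
    rw [← filter_filter, ← filter_filter]
    exact (card_filter_add_card_filter_not (s := H.filter (w ∈ ·)) (fun e => z ∈ e)).symm
  have h6 : (H.filter (z ∈ ·)).card = (H.filter (fun e => w ∈ e ∧ z ∈ e)).card +
      ((H.nonMemberSubfamily w).filter (z ∈ ·)).card := by
    have e1 : H.filter (fun e => w ∈ e ∧ z ∈ e) = (H.filter (z ∈ ·)).filter (w ∈ ·) := by
      ext e; simp only [mem_filter]; tauto
    have e2 : (H.nonMemberSubfamily w).filter (z ∈ ·) = (H.filter (z ∈ ·)).filter (¬ w ∈ ·) := by
      ext e; simp only [mem_filter, mem_nonMemberSubfamily]; tauto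
    rw [e1, e2]
    exact (card_filter_add_card_filter_not (s := H.filter (z ∈ ·)) (fun e => w ∈ e)).symm
  rw [card_mem, card_mem] at hdeg
  have h7 : (G.filter (¬ z ∈ ·)).card ≤ s := by omega
  have h8 : (S.filter (¬ z ∈ ·)).card ≤ K q s := by
    refine (card_le_card h3).trans ((cl_le_K hq ?_).trans (K_mono hq h7))
    intro e he
    exact hGU e (mem_filter.1 he).1
  omega

theorem struct_contra {ρ q p c v d N l : ℕ} (hρ : 2 ≤ ρ) (hq : 1 ≤ q)
    (hC : Corner ρ (q + 1) p c v d N) (hl : 1 ≤ l) (hK : K p l + 2 ≤ ρ)
    (hnp : c.choose (q + 1) < d) {H : Finset (Finset ℕ)} (hU : Uni (q + 1) H)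
    (hbad : K (q + 1) (d + l) + 1 ≤ (cl (q + 1) H).card + ρ) {w z : ℕ} (hzw : z ≠ w)
    (hdeg : (H.memberSubfamily w).card ≤ (H.memberSubfamily z).card)
    (hE : ((H.nonMemberSubfamily w).filter (z ∈ ·)).card ≤ l - 1)
    (hH : (H.nonMemberSubfamily w).card ≤ c.choose (q + 1) + (l - 1)) : False := by
  obtain ⟨b1, b2, b3, b4, b5, b6, b7, b8⟩ := hC.basic
  obtain ⟨n1, n2⟩ := hC.nonpure hnp
  have hsb := small_block (ρ := ρ) (p := p) (l := l) b1 hK
  obtain ⟨k1, k2⟩ := hC.block (l := l) (by omega)
  have e1 : (c + 1).choose (q + 1) = c.choose q + c.choose (q + 1) := Nat.choose_succ_succ' c q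
  have h1 := struct_bound hq hU hzw hdeg hE
  have h2 := cl_split hq hU w
  have h3 : (cl (q + 1) (H.nonMemberSubfamily w)).card ≤ K (q + 1) (c.choose (q + 1) + (l - 1)) :=
    (cl_le_K (by omega) (uni_non hU w)).trans (K_mono (by omega) hH)
  have h4 := K_rec (q := q) (c := c) (y := l - 1) hq (by omega) (by omega)
  have h5 : K q (l - 1) ≤ K q l := K_mono hq (by omega)
  have h6 : K q l ≤ K p l := K_anti b1 (by omega) l
  have h7 : l ≤ p * (ρ - 1) := by
    have := le_of_K_le (q := p) (m := l) (j := ρ - 2) b1 (by omega)
    have e : ρ - 2 + 1 = ρ - 1 := by omega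
    rwa [e] at this
  have h8 : p * (ρ - 1) ≤ (q - 1) * (ρ - 1) := Nat.mul_le_mul_right _ (by omega)
  have h9 := num_struct (q := q) (ρ := ρ) (by omega) hρ
  omega

end JL

theorem ss_one {ρ : ℕ} (_hρ : 2 ≤ ρ) : SS ρ 1 := by
  intro p c v d N l H hC
  have := hC.basic
  omega

open JL in
theorem ss_succ {ρ q : ℕ} (hρ : 2 ≤ ρ) (hq : 1 ≤ q) (hS : SS ρ q) (hI : Cls ρ q) :
    SS ρ (q + 1) := by
  -- strong induction on the number of members
  have main : ∀ n : ℕ, ∀ p c v d N l : ℕ, ∀ H : Finset (Finset ℕ), H.card = n →
      Corner ρ (q + 1) p c v d N → Uni (q + 1) H → 1 ≤ l → K p l + 2 ≤ ρ →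
      H.card + 1 = d + l → K (q + 1) (d + l) + 1 ≤ (cl (q + 1) H).card + ρ →
      Conc (q + 1) c v d N H := by
    intro n
    induction n using Nat.strong_induction_on with
    | _ n ih =>
    intro p c v d N l H hn hC hU hl hK hcard hbad
    obtain ⟨b1, b2, b3, b4, b5, b6, b7, b8⟩ := hC.basic
    have hsb := small_block (ρ := ρ) (p := p) (l := l) b1 hK
    obtain ⟨k1, k2⟩ := hC.block (l := l) (by omega)
    have hcpos : 0 < c.choose (q + 1) := Nat.choose_pos (by omega)
    have hbad' : K (q + 1) (H.card + 1) + 1 ≤ (cl (q + 1) H).card + ρ := by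
      rw [hcard]; exact hbad
    by_cases hsmall : ∃ w ∈ H.sup id, (H.memberSubfamily w).card ≤ l
    · obtain ⟨w, hw, hwl⟩ := hsmall
      have hpos := deg_pos hw
      have hsplit := card_split H w
      have hb := bad_del hq hU w hbad'
      rcases Nat.lt_or_ge (H.memberSubfamily w).card l with hlt | hge
      · refine conc_mono (H' := H.nonMemberSubfamily w) ?_
          (ih (H.nonMemberSubfamily w).card (by omega) p c v d N
            (l - (H.memberSubfamily w).card) (H.nonMemberSubfamily w) rfl hC (uni_non hU w)
            (by omega) ?_ (by omega) ?_)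
        · intro e he
          rw [mem_nonMemberSubfamily] at he
          exact he.1
        · have : K p (l - (H.memberSubfamily w).card) ≤ K p l := K_mono b1 (by omega)
          omega
        · have : d + (l - (H.memberSubfamily w).card) = (H.nonMemberSubfamily w).card + 1 := by
            omega
          rw [this]; exact hb
      · exfalso
        obtain ⟨k3, k4⟩ := hC.block (l := 0) (by omega)
        have e1 : (H.nonMemberSubfamily w).card + 1 = d + 0 := by omega
        have e2 : (H.nonMemberSubfamily w).card = d - 1 := by omega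
        rw [e1, k4] at hb
        have h1 := cl_le_K (q := q + 1) (by omega) (uni_non hU w)
        rw [e2] at h1
        have h2 := hC.pred
        omega
    · push Not at hsmall
      have hne : (H.sup id).Nonempty := by
        by_contra hcon
        rw [not_nonempty_iff_eq_empty] at hcon
        have : H.card ≤ 1 := by
          apply card_le_one.2
          intro a ha b hb
          have h1 : a ⊆ ∅ := hcon ▸ sub_supp ha
          have h2 : b ⊆ ∅ := hcon ▸ sub_supp hb
          rw [subset_empty.1 h1, subset_empty.1 h2]
        have h2 : H.card = 1 := by omega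
        obtain ⟨a, ha⟩ := card_eq_one.1 h2
        have h3 : a ⊆ ∅ := hcon ▸ sub_supp (by rw [ha]; exact mem_singleton_self a)
        have h4 := hU a (by rw [ha]; exact mem_singleton_self a)
        rw [subset_empty.1 h3] at h4
        simp at h4
      have hsub : H ⊆ (H.sup id).powersetCard (q + 1) := by
        intro e he
        rw [mem_powersetCard]
        exact ⟨sub_supp he, hU e he⟩
      have hcardle : H.card ≤ (H.sup id).card.choose (q + 1) := by
        have := card_le_card hsub
        rwa [card_powersetCard] at this
      rcases Nat.lt_trichotomy (H.sup id).card (c + 1) with hlt | heq | hgt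
      · -- at most `c` vertices
        have h1 : (H.sup id).card.choose (q + 1) ≤ c.choose (q + 1) :=
          Nat.choose_le_choose _ (by omega)
        have hnc : (H.sup id).card = c := by
          by_contra hcon
          have h2 : (H.sup id).card ≤ c - 1 := by omega
          have h3 : (H.sup id).card.choose (q + 1) ≤ (c - 1).choose (q + 1) :=
            Nat.choose_le_choose _ h2
          obtain ⟨c0, rfl⟩ : ∃ c0, c = c0 + 1 := ⟨c - 1, by omega⟩
          have h4 : (c0 + 1).choose (q + 1) = c0.choose q + c0.choose (q + 1) :=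
            Nat.choose_succ_succ' c0 q
          have h5 : 0 < c0.choose q := Nat.choose_pos (by omega)
          simp only [Nat.add_sub_cancel] at h3
          omega
        have hvc : v = c := hC.eq_of_le (by omega)
        subst hvc
        obtain ⟨u1, u2, u3⟩ := hC.pure_of_eq
        have hall : (H.sup id).powersetCard (q + 1) ⊆ H := by
          have : H = (H.sup id).powersetCard (q + 1) := by
            apply eq_of_subset_of_card_le hsub
            rw [card_powersetCard, hnc]; omega
          exact this.symm.subset
        rw [u1, u2]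
        exact conc_pure (by omega) hnc hall
      · -- exactly `c + 1` vertices
        obtain ⟨w, hw, hall⟩ := exists_missing (Q := q + 1) (c := c) (ρ := ρ) (H := H)
          (W := H.sup id) heq (fun e he => ⟨sub_supp he, hU e he⟩) (by omega) hρ b3 (by omega)
          hbad'
        have hYc : ((H.sup id).erase w).card = c := by
          rw [card_erase_of_mem hw, heq]; rfl
        cases hC with
        | pure q c hq hc => exact conc_pure (by omega) hYc hall
        | step q p c' v' d' N' c h hc =>
          obtain ⟨t1, t2, t3, t4, t5, t6, t7, t8⟩ := h.basic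
          have hnon : H.nonMemberSubfamily w = ((H.sup id).erase w).powersetCard (q + 1) := by
            ext e
            rw [mem_nonMemberSubfamily, mem_powersetCard, subset_erase]
            constructor
            · rintro ⟨he, hwe⟩
              exact ⟨⟨sub_supp he, hwe⟩, hU e he⟩
            · rintro ⟨⟨he, hwe⟩, hce⟩
              exact ⟨hall (mem_powersetCard.2 ⟨subset_erase.2 ⟨he, hwe⟩, hce⟩), hwe⟩
          have hG := uni_mem hU w
          have hsplit := card_split H w
          have hnc : (H.nonMemberSubfamily w).card = c.choose (q + 1) := by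
            rw [hnon, card_powersetCard, hYc]
          have hclG : cl q (H.memberSubfamily w) ⊆ H.nonMemberSubfamily w := by
            intro Z hZ
            rw [mem_cl (by omega)] at hZ
            rw [hnon, mem_powersetCard]
            refine ⟨?_, hZ.1⟩
            intro x hx
            obtain ⟨y, hy, hyx⟩ : ∃ y ∈ Z, y ≠ x := by
              apply exists_mem_ne _ x
              omega
            have h1 := hZ.2 y hy
            rw [mem_memberSubfamily] at h1
            have h2 : x ∈ Z.erase y := mem_erase.2 ⟨hyx.symm, hx⟩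
            rw [mem_erase]
            refine ⟨?_, sub_supp h1.1 (mem_insert_of_mem h2)⟩
            rintro rfl
            exact h1.2 h2
          have hcs := cl_split (by omega) hU w
          rw [inter_eq_left.2 hclG] at hcs
          have hcn : (cl (q + 1) (H.nonMemberSubfamily w)).card = c.choose (q + 2) := by
            apply le_antisymm
            · have : cl (q + 1) (H.nonMemberSubfamily w) ⊆
                  ((H.sup id).erase w).powersetCard (q + 1 + 1) := by
                intro Z hZ
                rw [mem_cl (by omega)] at hZ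
                rw [mem_powersetCard]
                refine ⟨?_, hZ.1⟩
                intro x hx
                obtain ⟨y, hy, hyx⟩ : ∃ y ∈ Z, y ≠ x := by
                  apply exists_mem_ne _ x
                  omega
                have h1 := hZ.2 y hy
                rw [hnon, mem_powersetCard] at h1
                exact h1.1 (mem_erase.2 ⟨hyx.symm, hx⟩)
              have h2 := card_le_card this
              rwa [card_powersetCard, hYc] at h2
            · have := card_le_card (cl_complete (q := q + 1) (by omega) hnon.symm.subset)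
              rwa [card_powersetCard, hYc] at this
          have hsb' := small_block (ρ := ρ) (p := p) (l := l) b1 hK
          obtain ⟨m1, m2⟩ := h.block (l := l) (by omega)
          have hmono : (c' + 1).choose q ≤ c.choose q := Nat.choose_le_choose _ (by omega)
          have hKr : K (q + 1) (c.choose (q + 1) + d' + l) = c.choose (q + 2) + K q (d' + l) := by
            have h := K_rec (q := q) (c := c) (y := d' + l) (by omega) (by omega) (by omega)
            rw [← Nat.add_assoc (c.choose (q + 1)) d' l] at h
            exact h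
          have hconc := hS p c' v' d' N' l (H.memberSubfamily w) h hG hl hK (by omega) (by omega)
          obtain ⟨Y', X', _, _, _, _, _, hN'⟩ := hconc
          have hN2 : N' ≤ (cl q (H.memberSubfamily w)).card :=
            hN'.trans (card_le_card (cl_mono (filter_subset _ _)))
          have hfil : H.filter (· ⊆ H.sup id) = H := by
            rw [filter_eq_self]; intro e he; exact sub_supp he
          refine ⟨(H.sup id).erase w, H.sup id, hYc, erase_subset _ _, by omega, hall, ?_, ?_⟩
          · rw [hfil]; omega
          · rw [hfil]; omega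
      · -- at least `c + 2` vertices
        exfalso
        obtain ⟨w, hw, hmin, havg⟩ := exists_min hU hne
        have hsplit := card_split H w
        have hδ := hsmall w hw
        have havg2 : (c + 2) * (H.memberSubfamily w).card ≤ (q + 1) * (d + l - 1) := by
          have h1 : (c + 2) * (H.memberSubfamily w).card ≤
              (H.sup id).card * (H.memberSubfamily w).card := Nat.mul_le_mul_right _ (by omega)
          have h2 : H.card = d + l - 1 := by omega
          rw [h2] at havg
          omega
        have hH' : d + l - 1 - (H.memberSubfamily w).card = (H.nonMemberSubfamily w).card := by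
          omega
        rcases hI p c v d N l _ hC hl hK (by omega) havg2 with hh | ⟨hnp, p2, c2, v2, d2, N2, h2,
          hp2, hv2, hd2, hd3⟩
        · rw [hH'] at hh
          have h1 := cl_del hq hU w
          have h2 := cl_le_K (q := q + 1) (by omega) (uni_non hU w)
          have h3 := min_le_left (K q (H.memberSubfamily w).card) (H.nonMemberSubfamily w).card
          omega
        · rw [hH'] at hd2 hd3
          obtain ⟨t1, t2, t3, t4, t5, t6, t7, t8⟩ := h2.basic
          have hb := bad_del hq hU w hbad'
          have hKp : K p2 ((H.nonMemberSubfamily w).card + 1 - d2) + 2 ≤ ρ := by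
            have g1 : K p2 ((H.nonMemberSubfamily w).card + 1 - d2) ≤ K p2 l :=
              K_mono t1 (by omega)
            have g2 : K p2 l ≤ K p l := K_anti b1 hp2 l
            omega
          have hconc := ih (H.nonMemberSubfamily w).card (by omega) p2 c2 v2 d2 N2
            ((H.nonMemberSubfamily w).card + 1 - d2) (H.nonMemberSubfamily w) rfl h2
            (uni_non hU w) (by omega) hKp (by omega)
            (by
              have : d2 + ((H.nonMemberSubfamily w).card + 1 - d2) =
                (H.nonMemberSubfamily w).card + 1 := by omega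
              rw [this]; exact hb)
          obtain ⟨Y, X, x1, x2, x3, x4, x5, x6⟩ := hconc
          -- a vertex outside
          obtain ⟨z, hz, hzX⟩ : ∃ z ∈ H.sup id, z ∉ insert w X := by
            apply exists_mem_notMem_of_card_lt_card
            have := card_insert_le w X
            omega
          rw [mem_insert, not_or] at hzX
          have hdj : ((H.nonMemberSubfamily w).filter (z ∈ ·)).card +
              ((H.nonMemberSubfamily w).filter (· ⊆ X)).card ≤ (H.nonMemberSubfamily w).card := by
            rw [← card_union_of_disjoint]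
            · apply card_le_card
              exact union_subset (filter_subset _ _) (filter_subset _ _)
            · rw [disjoint_left]
              intro e he1 he2
              rw [mem_filter] at he1 he2
              exact hzX.2 (he2.2 he1.2)
          have hd2c : d2 ≤ c.choose (q + 1) :=
            t8.trans (Nat.choose_le_choose _ hv2)
          exact struct_contra hρ hq hC hl hK hnp hU hbad (w := w) (z := z) hzX.1 (hmin z hz)
            (by omega) (by omega)
  intro p c v d N l H hC hU hl hK hcard hbad
  exact main H.card p c v d N l H rfl hC hU hl hK hcard hbad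

end Pool.Agent.H872.LK
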