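import Pool.Agent.H872.LK.Defs
import Pool.Agent.H872.LK.A1
import Pool.Agent.H872.LK.A3
import Pool.Agent.H872.LK.B
import Pool.Agent.H872.LK.C1
import Pool.Agent.H872.LK.C2
import Pool.Agent.H872.LK.C3
import Pool.Agent.H872.LK.E1
import Pool.Agent.H872.LK.G
import Pool.Agent.H872.LK.I
import Pool.Agent.H872.LK.J

/-! The main gap theorem (conclusion). -/

set_option autoImplicit false
open Finset
open scoped FinsetFamily

namespace Pool.Agent.H872.LK

namespace LL

/-- The structure theorem and the numerical classification at every level. -/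
theorem ss_all {ρ : ℕ} (hρ : 2 ≤ ρ) : ∀ q : ℕ, SS ρ (q + 1) ∧ Cls ρ (q + 1)
  | 0 => ⟨ss_one hρ, cls_one hρ⟩
  | q + 1 => by
      obtain ⟨h1, h2⟩ := ss_all hρ q
      have h3 : SS ρ (q + 1 + 1) := ss_succ hρ (Nat.succ_le_succ (Nat.zero_le q)) h1 h2
      exact ⟨h3, cls_succ hρ (Nat.succ_le_succ (Nat.zero_le q)) h3 h2⟩

/-- `a k > k` for a strictly increasing sequence with `a r > r`. -/
theorem lt_a {r : ℕ} {a : ℕ → ℕ} (har : r < a r) :
    ∀ k : ℕ, r ≤ k → (∀ i : ℕ, r ≤ i → i < k → a i < a (i + 1)) → k < a k := by
  intro k hk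
  induction k, hk using Nat.le_induction with
  | base => intro _; exact har
  | succ k hk ih =>
      intro h
      have h1 := ih (fun i hi hik => h i hi (Nat.lt_succ_of_lt hik))
      have h2 := h k hk (Nat.lt_succ_self k)
      omega

/-- Vandermonde form of the sums. -/
theorem exists_corner {r : ℕ} {a : ℕ → ℕ} (hr : 3 ≤ r) (har : r < a r) :
    ∀ n k : ℕ, r ≤ k → (∀ i : ℕ, r ≤ i → i < k → a i < a (i + 1)) → a k < n →
      ∃ c v d N : ℕ, Corner (r - 1) (n - k) (a r - r) c v d N ∧ c < n ∧
        d + ∑ i ∈ Finset.Icc r k, (a i).choose i = n.choose k ∧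
        N + ∑ i ∈ Finset.Icc r k, (a i).choose (i - 1) = n.choose (k - 1) := by
  intro n
  induction n with
  | zero => intro k _ _ h; exact absurd h (Nat.not_lt_zero _)
  | succ n ih =>
      intro k hk hmono hkn
      have hak := lt_a har k hk hmono
      rcases Nat.lt_or_ge (a k) n with hlt | hge
      · -- case (iii): use (n, k)
        obtain ⟨c, v, d, N, hC, hc, hd, hN⟩ := ih k hk hmono hlt
        have hnk : n + 1 - k = n - k + 1 := by omega
        refine ⟨n, n + 1, n.choose (n - k + 1) + d, n.choose (n - k + 2) + N, ?_, by omega, ?_, ?_⟩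
        · rw [hnk]
          exact Corner.step (n - k) (a r - r) c v d N n hC hc
        · have e1 : n.choose (n - k + 1) = n.choose (k - 1) := by
            apply Nat.choose_symm_of_eq_add
            omega
          have e2 : (n + 1).choose k = n.choose (k - 1) + n.choose k := by
            obtain ⟨j, rfl⟩ : ∃ j, k = j + 1 := ⟨k - 1, by omega⟩
            rw [Nat.choose_succ_succ]
            rfl
          rw [e1, e2]
          omega
        · have e1 : n.choose (n - k + 2) = n.choose (k - 2) := by
            apply Nat.choose_symm_of_eq_add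
            omega
          have e2 : (n + 1).choose (k - 1) = n.choose (k - 2) + n.choose (k - 1) := by
            obtain ⟨j, rfl⟩ : ∃ j, k = j + 2 := ⟨k - 2, by omega⟩
            show (n + 1).choose (j + 1) = n.choose j + n.choose (j + 1)
            rw [Nat.choose_succ_succ]
          rw [e1, e2]
          omega
      · have hakn : a k = n := by omega
        rcases Nat.eq_or_lt_of_le hk with hkr | hkr
        · -- case (i)
          subst hkr
          refine ⟨a r, a r, (a r).choose (a r - r + 1), (a r).choose (a r - r + 2), ?_, by omega,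
            ?_, ?_⟩
          · have e : n + 1 - r = a r - r + 1 := by omega
            rw [e]
            exact Corner.pure (a r - r) (a r) (by omega) (by omega)
          · rw [Finset.Icc_self, Finset.sum_singleton]
            have e1 : (a r).choose (a r - r + 1) = (a r).choose (r - 1) := by
              apply Nat.choose_symm_of_eq_add
              omega
            have e2 : (n + 1).choose r = n.choose (r - 1) + n.choose r := by
              obtain ⟨j, rfl⟩ : ∃ j, r = j + 1 := ⟨r - 1, by omega⟩
              rw [Nat.choose_succ_succ]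
              rfl
            rw [e1, e2, hakn]
          · rw [Finset.Icc_self, Finset.sum_singleton]
            have e1 : (a r).choose (a r - r + 2) = (a r).choose (r - 2) := by
              apply Nat.choose_symm_of_eq_add
              omega
            have e2 : (n + 1).choose (r - 1) = n.choose (r - 2) + n.choose (r - 1) := by
              obtain ⟨j, rfl⟩ : ∃ j, r = j + 2 := ⟨r - 2, by omega⟩
              show (n + 1).choose (j + 1) = n.choose j + n.choose (j + 1)
              rw [Nat.choose_succ_succ]
            rw [e1, e2, hakn]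
        · -- case (ii)
          obtain ⟨k', rfl⟩ : ∃ k', k = k' + 1 := ⟨k - 1, by omega⟩
          have hk' : r ≤ k' := by omega
          have hlt : a k' < n := by
            have := hmono k' hk' (Nat.lt_succ_self k')
            omega
          obtain ⟨c, v, d, N, hC, hc, hd, hN⟩ :=
            ih k' hk' (fun i hi hik => hmono i hi (Nat.lt_succ_of_lt hik)) hlt
          refine ⟨c, v, d, N, ?_, by omega, ?_, ?_⟩
          · have e : n + 1 - (k' + 1) = n - k' := by omega
            rw [e]
            exact hC
          · rw [Finset.sum_Icc_succ_top (by omega), hakn, Nat.choose_succ_succ, ← hd]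
            show _ = _
            rw [Nat.succ_eq_add_one]
            ring
          · rw [Finset.sum_Icc_succ_top (by omega), hakn]
            obtain ⟨j, rfl⟩ : ∃ j, k' = j + 1 := ⟨k' - 1, by omega⟩
            have e1 : j + 1 + 1 - 1 = j + 1 := by omega
            have e2 : j + 1 - 1 = j := by omega
            rw [e1] at *
            rw [e2] at hN
            rw [Nat.choose_succ_succ, ← hN]
            ring

end LL

theorem main_gap (t k r s : ℕ) (a : ℕ → ℕ) (ht : 1 ≤ t) (hr : 3 ≤ r) (hrk : r ≤ k)
    (har : r < a r) (hmono : ∀ i : ℕ, r ≤ i → i < k → a i < a (i + 1))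
    (h1 : f k (t - 1) ≤ ∑ i ∈ Finset.Icc r k, (a i).choose (i - 1))
    (h2 : ∑ i ∈ Finset.Icc r k, (a i).choose (i - 1) < s) (h3 : s ≤ f k (t - 1) + r - 2)
    (𝒜 : Finset (Finset ℕ)) (hc : 𝒜.card = t) (hU : Uni k 𝒜) (hs : (∂ 𝒜).card = s) :
    False := by
  have hak := LL.lt_a har k hrk hmono
  -- a large ground set
  obtain ⟨n, hn1, hn2⟩ : ∃ n : ℕ, a k < n ∧ ∀ A ∈ 𝒜, A ⊆ range n := by
    refine ⟨a k + 1 + (𝒜.sup id).sup id + 1, by omega, ?_⟩
    intro A hA x hx
    have hx1 : x ∈ 𝒜.sup id := by
      rw [Finset.mem_sup]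
      exact ⟨A, hA, hx⟩
    have hx2 : x ≤ (𝒜.sup id).sup id := Finset.le_sup (f := id) hx1
    rw [Finset.mem_range]
    omega
  obtain ⟨c, v, d, N, hC, hcn, hd, hN⟩ := LL.exists_corner hr har n k hrk hmono hn1
  set T := ∑ i ∈ Finset.Icc r k, (a i).choose i with hT
  set S := ∑ i ∈ Finset.Icc r k, (a i).choose (i - 1) with hS
  set Q := n - k with hQ
  set ρ := r - 1 with hρdef
  set p := a r - r with hp
  have hρ : 2 ≤ ρ := by omega
  have hb := hC.basic
  obtain ⟨hp1, hpQ, hQc, hcv, hvc, hcd, hcN, hdv⟩ := hb
  have hQ1 : 1 ≤ Q := by omega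
  have hQn : Q ≤ n := by omega
  have hkn : n - Q = k := by omega
  have hcQ : n.choose Q = n.choose k := by
    rw [hQ]; exact Nat.choose_symm (by omega)
  have hcQ1 : n.choose (Q + 1) = n.choose (k - 1) := by
    apply Nat.choose_symm_of_eq_add
    omega
  have hd1 : 1 ≤ d := by
    have : 0 < c.choose Q := Nat.choose_pos (by omega)
    omega
  have hpred := hC.pred
  -- (3)
  have htT : t ≤ T + 1 := by
    by_contra hcon
    have hle : f k (T + 1) ≤ f k (t - 1) := f_mono k (by omega)
    have hK := K_compl (q := Q) (c := n) (g := T + 1) hQ1 hQn (by rw [hcQ]; omega)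
    have e : n.choose Q - (T + 1) = d - 1 := by rw [hcQ]; omega
    rw [e, hkn, hcQ1] at hK
    omega
  -- (4)
  have hcount := compl_count (Q := Q) (range n) hQ1 (by rw [Finset.card_range]; omega) 𝒜
    (by
      intro A hA
      refine ⟨hn2 A hA, ?_⟩
      rw [Finset.card_range, hkn]
      exact hU A hA)
  rw [Finset.card_range, hkn, hc, hs] at hcount
  set H := ((((range n).powersetCard k) \ 𝒜).image ((range n) \ ·)) with hH
  obtain ⟨hH1, hH2, hH3⟩ := hcount
  rw [hcQ] at hH1
  rw [hcQ1] at hH3
  obtain ⟨l, hl⟩ : ∃ l, l = T + 1 - t := ⟨_, rfl⟩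
  have hHd : H.card + 1 = d + l := by omega
  have hK := K_compl (q := Q) (c := n) (g := t - 1) hQ1 hQn (by rw [hcQ]; omega)
  have e : n.choose Q - (t - 1) = d + l := by rw [hcQ]; omega
  rw [e, hkn, hcQ1] at hK
  have hK1 : K Q (d + l) + 1 ≤ (cl Q H).card + ρ := by omega
  have hclN : (cl Q H).card < N := by omega
  rcases Nat.eq_zero_or_pos l with hl0 | hlpos
  · have h5 : (cl Q H).card ≤ K Q H.card := cl_le_K hQ1 hH2
    have e5 : H.card = d - 1 := by omega
    rw [e5] at h5
    have h6 := (hC.block (l := 0) (Nat.zero_le _)).2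
    rw [hl0] at hK1
    omega
  · by_cases hKl : K p l + 2 ≤ ρ
    · obtain ⟨q, hq⟩ : ∃ q, Q = q + 1 := ⟨Q - 1, by omega⟩
      have hSS : SS ρ Q := by rw [hq]; exact (LL.ss_all hρ q).1
      obtain ⟨Y, X, _, _, _, _, _, h9⟩ :=
        hSS p c v d N l H hC hH2 hlpos hKl hHd hK1
      have h10 : (cl Q (H.filter (· ⊆ X))).card ≤ (cl Q H).card :=
        Finset.card_le_card (cl_mono (Finset.filter_subset _ _))
      omega
    · rcases Nat.lt_or_ge ((p + 1 + ρ).choose p) l with hlB | hlB
      · have hB : ¬ (K p ((p + 1 + ρ).choose p) + 2 ≤ ρ) := by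
          intro hcon
          have := small_block hp1 hcon
          omega
        have h6 := (hC.block (l := (p + 1 + ρ).choose p) le_rfl).2
        have h7 : K Q (d + (p + 1 + ρ).choose p) ≤ K Q (d + l) := K_mono hQ1 (by omega)
        omega
      · have h6 := (hC.block hlB).2
        omega

end Pool.Agent.H872.LK
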